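import Pool.Agent.Helper51.MU.Good

/-!
# From finite models to the ultraproduct
-/

set_option linter.unusedSectionVars false

namespace Helper51.MU

open Filter Topology
open scoped Matrix.Norms.L2Operator

variable (ι : ℕ → Type) [∀ n, Fintype (ι n)] [∀ n, DecidableEq (ι n)]

variable {ι} {G : Type} [Group G] {U : Ultrafilter ℕ}

lemma norm_unitary_le {κ : Type} [Fintype κ] [DecidableEq κ] (u : Matrix κ κ ℂ)
    (hu : u ∈ Matrix.unitaryGroup κ ℂ) : ‖u‖ ≤ 1 := by
  rcases isEmpty_or_nonempty κ with h | h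
  · have : u = 0 := Subsingleton.elim _ _
    rw [this, norm_zero]
    exact zero_le_one
  · exact le_of_eq (CStarRing.norm_of_mem_unitary hu)

/-- The bounded sequence given by a sequence of unitary matrices. -/
noncomputable def useq (w : ∀ n, Matrix.unitaryGroup (ι n) ℂ) : BSeq ι :=
  ⟨fun n => (w n : Matrix (ι n) (ι n) ℂ), 1, fun n => norm_unitary_le _ (w n).2⟩

lemma useq_val (w : ∀ n, Matrix.unitaryGroup (ι n) ℂ) (n : ℕ) :
    (useq w).1 n = (w n : Matrix (ι n) (ι n) ℂ) := rfl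

lemma useq_star_mul (w : ∀ n, Matrix.unitaryGroup (ι n) ℂ) : star (useq w) * useq w = 1 := by
  apply Subtype.ext
  funext n
  exact Matrix.mem_unitaryGroup_iff'.1 (w n).2

lemma useq_mul_star (w : ∀ n, Matrix.unitaryGroup (ι n) ℂ) : useq w * star (useq w) = 1 := by
  apply Subtype.ext
  funext n
  exact Matrix.mem_unitaryGroup_iff.1 (w n).2

/-- If two sequences agree along the ultrafilter they define the same element. -/
lemma mk_eq_of_eventually {x y : BSeq ι} (h : ∀ᶠ n in (U : Filter ℕ), x.1 n = y.1 n) :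
    mkM U x = mkM U y := by
  rw [mk_eq_mk]
  refine Filter.Tendsto.congr' (f₁ := fun _ => (0 : ℝ)) ?_ tendsto_const_nhds
  filter_upwards [h] with n hn
  rw [hn, sub_self]
  simp [nn, hs]

/-- The homomorphism into the unitary group of the ultraproduct given by an asymptotically
multiplicative sequence of maps. -/
noncomputable def uhom (w : ∀ n, G → Matrix.unitaryGroup (ι n) ℂ)
    (hmul : ∀ g h, ∀ᶠ n in (U : Filter ℕ), w n (g * h) = w n g * w n h) :
    G →* MUlt ι U where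
  toFun g := mkM U (useq fun n => w n g)
  map_one' := by
    have h1 : mkM U (useq fun n => w n (1 : G)) = mkM U 1 := by
      refine mk_eq_of_eventually ?_
      filter_upwards [hmul 1 1] with n hn
      rw [mul_one] at hn
      have : w n 1 = 1 := mul_eq_left.1 hn.symm
      show ((w n 1 : Matrix.unitaryGroup (ι n) ℂ) : Matrix (ι n) (ι n) ℂ) = 1
      rw [this]
      rfl
    rw [map_one] at h1
    exact h1
  map_mul' g h := by
    rw [← map_mul]
    refine mk_eq_of_eventually ?_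
    filter_upwards [hmul g h] with n hn
    show ((w n (g * h) : Matrix.unitaryGroup (ι n) ℂ) : Matrix (ι n) (ι n) ℂ) = _
    rw [hn]
    rfl

lemma uhom_coe (w : ∀ n, G → Matrix.unitaryGroup (ι n) ℂ)
    (hmul : ∀ g h, ∀ᶠ n in (U : Filter ℕ), w n (g * h) = w n g * w n h) (g : G) :
    uhom w hmul g = mkM U (useq fun n => w n g) := rfl

lemma uhom_unitary (w : ∀ n, G → Matrix.unitaryGroup (ι n) ℂ)
    (hmul : ∀ g h, ∀ᶠ n in (U : Filter ℕ), w n (g * h) = w n g * w n h) (g : G) :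
    star (uhom w hmul g) * uhom w hmul g = 1 := by
  rw [uhom_coe, star_mk, ← map_mul, useq_star_mul, map_one]

lemma nn_one_le {κ : Type} [Fintype κ] [DecidableEq κ] : nn (1 : Matrix κ κ ℂ) ≤ 1 := by
  have h := nn_le_norm_sq (1 : Matrix κ κ ℂ)
  have h1 : ‖(1 : Matrix κ κ ℂ)‖ ≤ 1 := norm_unitary_le 1 (Submonoid.one_mem _)
  nlinarith [norm_nonneg (1 : Matrix κ κ ℂ)]

/-- A bounded sequence that is asymptotically scalar defines a scalar. -/
lemma scalar_of_tendsto (y : BSeq ι)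
    (h : Tendsto (fun n => nn (y.1 n - ntr (y.1 n) • (1 : Matrix (ι n) (ι n) ℂ))) U (𝓝 0)) :
    ∃ c : ℂ, mkM U y = algebraMap ℂ (MUlt ι U) c := by
  obtain ⟨a, ha⟩ := exists_lim (U := U) (bounded_ntr y)
  refine ⟨a, ?_⟩
  have h1 : algebraMap ℂ (MUlt ι U) a = mkM U (algebraMap ℂ (BSeq ι) a) :=
    rfl
  rw [h1, mk_eq_mk]
  have h2 : Tendsto (fun n => ‖ntr (y.1 n) - a‖ ^ 2) U (𝓝 0) := by
    have := (tendsto_iff_norm_sub_tendsto_zero.1 ha).pow 2
    simpa using this
  have h3 : Tendsto (fun n => 2 * nn (y.1 n - ntr (y.1 n) • (1 : Matrix (ι n) (ι n) ℂ)) +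
      2 * ‖ntr (y.1 n) - a‖ ^ 2) U (𝓝 0) := by
    simpa using (h.const_mul 2).add (h2.const_mul 2)
  refine squeeze_zero (fun n => nn_nonneg _) (fun n => ?_) h3
  have e : (y.1 n - (algebraMap ℂ (BSeq ι) a).1 n : Matrix (ι n) (ι n) ℂ) =
      (y.1 n - ntr (y.1 n) • (1 : Matrix (ι n) (ι n) ℂ)) +
      (ntr (y.1 n) - a) • (1 : Matrix (ι n) (ι n) ℂ) := by
    have : ((algebraMap ℂ (BSeq ι) a).1 n : Matrix (ι n) (ι n) ℂ) = a • 1 := by
      show (algebraMap ℂ (∀ n, Matrix (ι n) (ι n) ℂ) a) n = _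
      rw [Pi.algebraMap_apply, Algebra.algebraMap_eq_smul_one]
    rw [this, sub_smul]
    abel
  rw [e]
  refine (nn_add_le _ _).trans ?_
  rw [nn_smul]
  have := nn_one_le (κ := ι n)
  have h4 : 0 ≤ ‖ntr (y.1 n) - a‖ ^ 2 := by positivity
  nlinarith

lemma commute_tendsto {x y : BSeq ι}
    (h : mkM U y * mkM U x =
      mkM U x * mkM U y) :
    Tendsto (fun n => nn (x.1 n * y.1 n - y.1 n * x.1 n)) U (𝓝 0) := by
  rw [← map_mul, ← map_mul, mk_eq_mk] at h
  refine h.congr fun n => ?_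
  rw [← nn_neg, neg_sub]
  rfl

/-- Main assembly lemma. -/
lemma irredHom_of_models (w : ∀ n, G → Matrix.unitaryGroup (ι n) ℂ)
    (hmul : ∀ g h, ∀ᶠ n in (U : Filter ℕ), w n (g * h) = w n g * w n h)
    {χ : G → ℂ} (htr : ∀ g, Tendsto (fun n => ntr (w n g : Matrix (ι n) (ι n) ℂ)) U (𝓝 (χ g)))
    {S : Finset G} {c : ℝ} (hc : 0 < c)
    (hgap : ∀ᶠ n in (U : Filter ℕ), ∀ y : Matrix (ι n) (ι n) ℂ,
      c * hs (y - ntr y • (1 : Matrix (ι n) (ι n) ℂ)) ≤
      ∑ s ∈ S, hs ((w n s : Matrix (ι n) (ι n) ℂ) * y - y * (w n s : Matrix (ι n) (ι n) ℂ))) :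
    IrredHom ι χ U := by
  refine ⟨uhom w hmul, uhom_unitary w hmul, fun g => ?_, fun y hy => ?_⟩
  · rw [uhom_coe]
    exact tr_mk_eq (htr g)
  obtain ⟨y, rfl⟩ := mkM_surjective y
  refine scalar_of_tendsto y ?_
  have h1 : ∀ s, Tendsto (fun n => nn ((w n s : Matrix (ι n) (ι n) ℂ) * y.1 n -
      y.1 n * (w n s : Matrix (ι n) (ι n) ℂ))) U (𝓝 0) := by
    intro s
    have h0 := hy s
    rw [uhom_coe] at h0
    have h5 := commute_tendsto (x := useq fun n => w n s) (y := y) (U := U) h0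
    simp only [useq_val] at h5
    exact h5
  have h2 : Tendsto (fun n => c⁻¹ * ∑ s ∈ S, nn ((w n s : Matrix (ι n) (ι n) ℂ) * y.1 n -
      y.1 n * (w n s : Matrix (ι n) (ι n) ℂ))) U (𝓝 0) := by
    have := (tendsto_finsetSum S fun s _ => h1 s).const_mul c⁻¹
    simpa using this
  refine squeeze_zero' (Filter.Eventually.of_forall fun n => nn_nonneg _) ?_ h2
  filter_upwards [hgap] with n hn
  have h3 := hn (y.1 n)
  have h4 : c * nn (y.1 n - ntr (y.1 n) • (1 : Matrix (ι n) (ι n) ℂ)) ≤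
      ∑ s ∈ S, nn ((w n s : Matrix (ι n) (ι n) ℂ) * y.1 n -
        y.1 n * (w n s : Matrix (ι n) (ι n) ℂ)) := by
    unfold nn
    rw [← Finset.sum_div, ← mul_div_assoc]
    exact div_le_div_of_nonneg_right h3 (by positivity)
  rw [inv_mul_eq_div, le_div_iff₀ hc]
  linarith

lemma Nonprincipal.le_atTop {U : Ultrafilter ℕ} (h : Nonprincipal U) : (U : Filter ℕ) ≤ atTop := by
  rw [← Nat.cofinite_eq_atTop]
  intro s hs
  rw [Filter.mem_cofinite] at hs
  have := h _ hs
  rwa [compl_compl] at this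

end Helper51.MU
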