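import Mathlib

/-!
# Normalized trace and 2-norm of a matrix
-/

namespace Helper51.MU

variable {ι : Type} [Fintype ι]

/-- The normalized trace of a square complex matrix. -/
noncomputable def ntr (x : Matrix ι ι ℂ) : ℂ := (∑ i, x i i) / (Fintype.card ι : ℂ)

/-- The squared Hilbert-Schmidt norm. -/
noncomputable def hs (x : Matrix ι ι ℂ) : ℝ := ∑ i, ∑ j, ‖x i j‖ ^ 2

/-- The square of the normalized 2-norm, `nn x = τ(x* x)`. -/
noncomputable def nn (x : Matrix ι ι ℂ) : ℝ := hs x / (Fintype.card ι : ℝ)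

end Helper51.MU
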