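import Pool.Agent.Helper51.MU.Model

/-!
# Characters and extremality
-/

set_option linter.unusedSectionVars false

namespace Helper51.MU

open Filter Topology
open scoped Matrix.Norms.L2Operator

namespace IsChar

variable {Q : Type} [Group Q]

lemma sum {I : Type} [Fintype I] (w : I → ℝ) (hw : ∀ i, 0 ≤ w i) (hs : ∑ i, w i = 1)
    (f : I → Q → ℂ) (hf : ∀ i, IsChar (f i)) : IsChar fun q => ∑ i, (w i : ℂ) * f i q := by
  have key : ∀ (m : ℕ) (a : Fin m → ℂ) (x : Fin m → Q),
      (∑ i, ∑ k, star (a i) * a k * ∑ j, (w j : ℂ) * f j ((x i)⁻¹ * x k)) =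
      ∑ j, (w j : ℂ) * ∑ i, ∑ k, star (a i) * a k * f j ((x i)⁻¹ * x k) := by
    intro m a x
    simp only [Finset.mul_sum]
    have h1 : ∀ i : Fin m, ∑ k : Fin m, ∑ j : I, star (a i) * a k * ((w j : ℂ) *
        f j ((x i)⁻¹ * x k)) = ∑ j : I, ∑ k : Fin m, star (a i) * a k * ((w j : ℂ) *
        f j ((x i)⁻¹ * x k)) := fun i => Finset.sum_comm
    simp only [h1]
    rw [Finset.sum_comm]
    refine Finset.sum_congr rfl fun j _ => Finset.sum_congr rfl fun i _ =>
      Finset.sum_congr rfl fun k _ => by ring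
  refine ⟨?_, ?_, ?_⟩
  · have : ∀ i, (w i : ℂ) * f i 1 = (w i : ℂ) := fun i => by rw [(hf i).one, mul_one]
    simp only [this]
    exact_mod_cast hs
  · intro g h
    refine Finset.sum_congr rfl fun i _ => by rw [(hf i).conj]
  · intro m a x
    rw [key, Complex.im_sum, Complex.re_sum]
    constructor
    · refine Finset.sum_eq_zero fun j _ => ?_
      rw [Complex.im_ofReal_mul, ((hf j).pos m a x).1, mul_zero]
    · refine Finset.sum_nonneg fun j _ => ?_
      rw [Complex.re_ofReal_mul]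
      exact mul_nonneg (hw j) ((hf j).pos m a x).2

end IsChar

namespace FRep

variable {Q : Type} [Group Q] [TopologicalSpace Q]

lemma sum_sum_χ' (π : FRep Q) (m : ℕ) (a : Fin m → ℂ) (x : Fin m → Q) :
    ∑ i, ∑ k, star (a i) * a k * π.χ ((x i)⁻¹ * x k) =
      (nn (∑ i, a i • (π.ρ (x i) : Matrix π.ι π.ι ℂ)) : ℂ) := by
  rw [← ntr_star_mul_self, star_sum, Finset.sum_mul, ntr_sum]
  refine Finset.sum_congr rfl fun i _ => ?_
  rw [Finset.mul_sum, ntr_sum]
  refine Finset.sum_congr rfl fun k _ => ?_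
  rw [star_smul, smul_mul_assoc, mul_smul_comm, ntr_smul, ntr_smul, mul_assoc]
  unfold χ
  rw [map_mul, map_inv]
  rfl

lemma isChar (π : FRep Q) : IsChar π.χ := by
  refine ⟨π.χ_one, fun g h => π.χ_conj h g, fun m a x => ?_⟩
  rw [sum_sum_χ']
  exact ⟨Complex.ofReal_im _, by rw [Complex.ofReal_re]; exact nn_nonneg _⟩

/-- Every representation is a convex combination of irreducible ones on the level of normalized
characters. -/
lemma exists_decomp (π : FRep Q) : ∃ (I : Type) (_ : Fintype I) (w : I → ℝ) (σ : I → FRep Q),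
    (∀ i, 0 ≤ w i) ∧ ∑ i, w i = 1 ∧ (∀ i, (σ i).Irred) ∧
      ∀ q, π.χ q = ∑ i, (w i : ℂ) * (σ i).χ q := by
  induction hn : Fintype.card π.ι using Nat.strong_induction_on generalizing π with
  | _ n ih =>
    by_cases hirr : π.Irred
    · exact ⟨Unit, inferInstance, fun _ => 1, fun _ => π, by simp, by simp, fun _ => hirr,
        by simp⟩
    · obtain ⟨σ, τ, h1, h2, h3⟩ := exists_split π hirr
      obtain ⟨I, _, w, s, hw, hws, hs, hsχ⟩ := ih _ (hn ▸ h1) σ rfl
      obtain ⟨J, _, v, t, hv, hvs, ht, htχ⟩ := ih _ (hn ▸ h2) τ rfl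
      have hc := (h3 1).2
      have p0 := π.card_pos
      have p1 := σ.card_pos
      have p2 := τ.card_pos
      refine ⟨I ⊕ J, inferInstance,
        Sum.elim (fun i => (Fintype.card σ.ι : ℝ) / Fintype.card π.ι * w i)
          (fun j => (Fintype.card τ.ι : ℝ) / Fintype.card π.ι * v j), Sum.elim s t, ?_, ?_, ?_, ?_⟩
      · rintro (i | j)
        · exact mul_nonneg (by positivity) (hw i)
        · exact mul_nonneg (by positivity) (hv j)
      · rw [Fintype.sum_sum_type]
        simp only [Sum.elim_inl, Sum.elim_inr, ← Finset.mul_sum, hws, hvs, mul_one]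
        rw [← add_div, ← hc, div_self p0.ne']
      · rintro (i | j)
        · exact hs i
        · exact ht j
      · intro q
        have h4 := (h3 q).1
        have e0 : (Fintype.card π.ι : ℂ) ≠ 0 := by exact_mod_cast Fintype.card_ne_zero
        rw [Fintype.sum_sum_type]
        simp only [Sum.elim_inl, Sum.elim_inr, Complex.ofReal_mul, Complex.ofReal_div,
          Complex.ofReal_natCast, mul_assoc, ← Finset.mul_sum, ← hsχ, ← htχ]
        field_simp
        linear_combination h4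

end FRep

/-- Grouping a convex combination by labels. -/
lemma exists_label {I L : Type} [Fintype I] [Fintype L] [Nontrivial L] (w : I → ℝ)
    (hw : ∀ i, 0 ≤ w i) (hs : ∑ i, w i = 1) (lab : I → L) :
    ∃ (l : L) (a b : I → ℝ), (∀ i, 0 ≤ a i) ∧ (∀ i, 0 ≤ b i) ∧ ∑ i, a i = 1 ∧ ∑ i, b i = 1 ∧
      (∀ i, a i ≠ 0 → lab i = l) ∧
      ∀ i, w i = (1 / Fintype.card L : ℝ) * a i + (1 - 1 / Fintype.card L : ℝ) * b i := by
  classical
  have hL : (1 : ℝ) < Fintype.card L := by exact_mod_cast Fintype.one_lt_card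
  have hL0 : (0 : ℝ) < Fintype.card L := by linarith
  have h1 : ∑ l : L, ∑ i ∈ Finset.univ.filter (fun i => lab i = l), w i = 1 := by
    rw [← hs]
    exact Finset.sum_fiberwise_of_maps_to (fun i _ => Finset.mem_univ (lab i)) w
  obtain ⟨l, hl⟩ : ∃ l : L, 1 / (Fintype.card L : ℝ) ≤
      ∑ i ∈ Finset.univ.filter (fun i => lab i = l), w i := by
    by_contra hcon
    push Not at hcon
    have : ∑ l : L, ∑ i ∈ Finset.univ.filter (fun i => lab i = l), w i <
        ∑ _l : L, 1 / (Fintype.card L : ℝ) :=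
      Finset.sum_lt_sum_of_nonempty Finset.univ_nonempty fun l _ => hcon l
    rw [h1, Finset.sum_const, Finset.card_univ, nsmul_eq_mul, mul_one_div, div_self hL0.ne'] at this
    exact lt_irrefl _ this
  set t := ∑ i ∈ Finset.univ.filter (fun i => lab i = l), w i with ht
  have ht0 : 0 < t := lt_of_lt_of_le (by positivity) hl
  set K : ℝ := 1 / Fintype.card L with hK
  have hK0 : 0 < K := by positivity
  have hK1 : K < 1 := by rw [hK, div_lt_one hL0]; exact hL
  let a : I → ℝ := fun i => if lab i = l then w i / t else 0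
  have ha : ∀ i, K * a i ≤ w i := by
    intro i
    by_cases h : lab i = l
    · simp only [a, if_pos h]
      rw [mul_div_assoc', div_le_iff₀ ht0]
      have := hw i
      nlinarith
    · simp only [a, if_neg h, mul_zero]
      exact hw i
  have ha1 : ∑ i, a i = 1 := by
    simp only [a]
    rw [← Finset.sum_filter, ← Finset.sum_div, ← ht, div_self ht0.ne']
  refine ⟨l, a, fun i => (w i - K * a i) / (1 - K), ?_, ?_, ha1, ?_, ?_, ?_⟩
  · intro i
    by_cases h : lab i = l
    · simp only [a, if_pos h]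
      exact div_nonneg (hw i) ht0.le
    · simp only [a, if_neg h]
      exact le_refl _
  · intro i
    exact div_nonneg (by linarith [ha i]) (by linarith)
  · rw [← Finset.sum_div, Finset.sum_sub_distrib, ← Finset.mul_sum, hs, ha1, mul_one,
      div_self (by linarith)]
  · intro i hi
    by_contra h
    simp only [a, if_neg h] at hi
    exact hi rfl
  · intro i
    have : (1 - K) ≠ 0 := by linarith
    field_simp
    ring

/-- The four directions `1, -1, i, -i`. -/
noncomputable def dir : Fin 4 → ℂ := ![1, -1, -Complex.I, Complex.I]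

lemma exists_dir {z : ℂ} {ε : ℝ} (h : ε < ‖z‖) : ∃ d : Fin 4, ε / 2 ≤ (dir d * z).re := by
  by_contra hcon
  push Not at hcon
  have h0 := hcon 0
  have h1 := hcon 1
  have h2 := hcon 2
  have h3 := hcon 3
  simp [dir] at h0 h1 h2 h3
  have h4 : ‖z‖ ≤ |z.re| + |z.im| := Complex.norm_le_abs_re_add_abs_im z
  have h5 : |z.re| < ε / 2 := abs_lt.2 ⟨by linarith, by linarith⟩
  have h6 : |z.im| < ε / 2 := abs_lt.2 ⟨by linarith, by linarith⟩
  linarith

section limit

variable {G : Type} [Group G] {Q : ℕ → Type} [∀ j, Group (Q j)] (φ : ∀ j, G → Q j)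

/-- A limit of characters along asymptotically multiplicative maps is a character. -/
lemma isChar_of_tendsto {V : Ultrafilter ℕ} (hV : (V : Filter ℕ) ≤ atTop)
    (hmul : ∀ g h : G, ∀ᶠ j in atTop, φ j (g * h) = φ j g * φ j h)
    (α : ∀ j, Q j → ℂ) (hα : ∀ j, IsChar (α j)) (a : G → ℂ)
    (ha : ∀ g, Tendsto (fun j => α j (φ j g)) V (𝓝 (a g))) : IsChar a := by
  have hone : ∀ᶠ j in atTop, φ j (1 : G) = 1 := by
    filter_upwards [hmul 1 1] with j hj
    rw [mul_one] at hj
    exact mul_eq_left.1 hj.symm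
  have hinv : ∀ g, ∀ᶠ j in atTop, φ j g⁻¹ = (φ j g)⁻¹ := by
    intro g
    filter_upwards [hmul g g⁻¹, hone] with j h1 h2
    rw [mul_inv_cancel, h2] at h1
    exact eq_inv_of_mul_eq_one_right h1.symm
  refine ⟨?_, ?_, ?_⟩
  · refine tendsto_nhds_unique_of_eventuallyEq (ha 1) tendsto_const_nhds ?_
    filter_upwards [hV hone] with j hj
    rw [hj]
    exact (hα j).one
  · intro g h
    refine tendsto_nhds_unique_of_eventuallyEq (ha _) (ha g) ?_
    filter_upwards [hV (hmul (h * g) h⁻¹), hV (hmul h g), hV (hinv h)] with j h1 h2 h3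
    rw [h1, h2, h3]
    exact (hα j).conj _ _
  · intro m b x
    have h1 : Tendsto (fun j => ∑ i, ∑ k, star (b i) * b k * α j ((φ j (x i))⁻¹ * φ j (x k)))
        V (𝓝 (∑ i, ∑ k, star (b i) * b k * a ((x i)⁻¹ * x k))) := by
      refine tendsto_finsetSum _ fun i _ => tendsto_finsetSum _ fun k _ => ?_
      refine Tendsto.const_mul _ ?_
      refine (ha ((x i)⁻¹ * x k)).congr' ?_
      filter_upwards [hV (hmul (x i)⁻¹ (x k)), hV (hinv (x i))] with j h1 h2
      rw [h1, h2]
    constructor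
    · have h2 := (Complex.continuous_im.tendsto _).comp h1
      refine tendsto_nhds_unique h2 ?_
      refine tendsto_const_nhds.congr fun j => ?_
      exact ((hα j).pos m b fun i => φ j (x i)).1.symm
    · have h2 := (Complex.continuous_re.tendsto _).comp h1
      exact ge_of_tendsto' h2 fun j => ((hα j).pos m b fun i => φ j (x i)).2

end limit

/-- Irreducible representations whose characters approximate an extremal character. -/
lemma exists_irred_close {G : Type} [Group G] {Q : ℕ → Type} [∀ j, Group (Q j)]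
    [∀ j, TopologicalSpace (Q j)] (φ : ∀ j, G → Q j)
    (hmul : ∀ g h : G, ∀ᶠ j in atTop, φ j (g * h) = φ j g * φ j h)
    (χ : G → ℂ) (hχ : IsExtremalChar χ) (π : ∀ j, FRep (Q j))
    (hπ : ∀ g, Tendsto (fun j => (π j).χ (φ j g)) atTop (𝓝 (χ g)))
    (E : Finset G) {ε : ℝ} (hε : 0 < ε) :
    ∀ᶠ j in atTop, ∃ σ : FRep (Q j), σ.Irred ∧ ∀ g ∈ E, ‖σ.χ (φ j g) - χ g‖ ≤ ε := by
  classical
  by_contra hcon
  have hfreq : ∃ᶠ j in atTop, ∀ σ : FRep (Q j), σ.Irred → ∃ g ∈ E, ε < ‖σ.χ (φ j g) - χ g‖ := by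
    rw [Filter.not_eventually] at hcon
    refine hcon.mono fun j hj => ?_
    push Not at hj
    exact hj
  -- labels
  let L := Option (E × Fin 4)
  have : Nontrivial L := by
    have hne : E.Nonempty := by
      obtain ⟨j, hj⟩ := hfreq.exists
      obtain ⟨I, _, w, σ, hw, hws, hs, hsχ⟩ := (π j).exists_decomp
      have : Nonempty I := by
        by_contra hI
        rw [not_nonempty_iff] at hI
        simp at hws
      obtain ⟨i⟩ := this
      obtain ⟨g, hg, _⟩ := hj (σ i) (hs i)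
      exact ⟨g, hg⟩
    obtain ⟨g, hg⟩ := hne
    exact ⟨none, some (⟨g, hg⟩, 0), by simp⟩
  -- the splitting at each bad level
  have hsplit : ∀ j, ∃ (l : L) (α β : Q j → ℂ), IsChar α ∧ IsChar β ∧
      (∀ q, ‖α q‖ ≤ 1) ∧ (∀ q, ‖β q‖ ≤ 1) ∧
      (∀ q, (π j).χ q = (1 / Fintype.card L : ℝ) * α q + (1 - (1 / Fintype.card L : ℝ)) * β q) ∧
      ((∀ σ : FRep (Q j), σ.Irred → ∃ g ∈ E, ε < ‖σ.χ (φ j g) - χ g‖) →
        ∃ (p : E × Fin 4), l = some p ∧ ε / 2 ≤ (dir p.2 * (α (φ j p.1) - χ p.1)).re) := by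
    intro j
    obtain ⟨I, _, w, σ, hw, hws, hs, hsχ⟩ := (π j).exists_decomp
    have hlab : ∀ i : I, ∃ l : L, (∃ g ∈ E, ε < ‖(σ i).χ (φ j g) - χ g‖) →
        ∃ (p : E × Fin 4), l = some p ∧ ε / 2 ≤ (dir p.2 * ((σ i).χ (φ j p.1) - χ p.1)).re := by
      intro i
      by_cases h : ∃ g ∈ E, ε < ‖(σ i).χ (φ j g) - χ g‖
      · obtain ⟨g, hg, h1⟩ := h
        obtain ⟨d, hd⟩ := exists_dir h1
        exact ⟨some (⟨g, hg⟩, d), fun _ => ⟨(⟨g, hg⟩, d), rfl, hd⟩⟩
      · exact ⟨none, fun h' => absurd h' h⟩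
    choose lab hlab using hlab
    obtain ⟨l, a, b, ha, hb, has, hbs, hal, hab⟩ := exists_label w hw hws lab
    have hnorm : ∀ (a : I → ℝ), (∀ i, 0 ≤ a i) → ∑ i, a i = 1 →
        ∀ q, ‖∑ i, (a i : ℂ) * (σ i).χ q‖ ≤ 1 := by
      intro a ha has q
      rw [← has]
      refine (norm_sum_le _ _).trans (Finset.sum_le_sum fun i _ => ?_)
      rw [norm_mul, Complex.norm_real, Real.norm_of_nonneg (ha i)]
      have := (σ i).norm_χ_le_one q
      nlinarith [ha i]
    refine ⟨l, fun q => ∑ i, (a i : ℂ) * (σ i).χ q, fun q => ∑ i, (b i : ℂ) * (σ i).χ q,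
      IsChar.sum a ha has _ fun i => (σ i).isChar, IsChar.sum b hb hbs _ fun i => (σ i).isChar,
      hnorm a ha has, hnorm b hb hbs, ?_, ?_⟩
    · intro q
      rw [hsχ, Finset.mul_sum, Finset.mul_sum, ← Finset.sum_add_distrib]
      refine Finset.sum_congr rfl fun i _ => ?_
      rw [hab i]
      push_cast
      ring
    · intro hbad
      have h1 : ∀ i, a i ≠ 0 → ∃ (p : E × Fin 4), l = some p ∧
          ε / 2 ≤ (dir p.2 * ((σ i).χ (φ j p.1) - χ p.1)).re := by
        intro i hi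
        have := hlab i (hbad (σ i) (hs i))
        rwa [hal i hi] at this
      obtain ⟨i0, hi0⟩ : ∃ i, a i ≠ 0 := by
        by_contra hcon
        push Not at hcon
        simp [hcon] at has
      obtain ⟨p, hp, hp2⟩ := h1 i0 hi0
      refine ⟨p, hp, ?_⟩
      have h2 : ∀ i, a i * (ε / 2) ≤ a i * (dir p.2 * ((σ i).χ (φ j p.1) - χ p.1)).re := by
        intro i
        by_cases hi : a i = 0
        · simp [hi]
        · obtain ⟨p', hp', h3⟩ := h1 i hi
          have : p' = p := by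
            rw [hp] at hp'
            exact (Option.some.inj hp').symm
          subst this
          exact mul_le_mul_of_nonneg_left h3 (ha i)
      have h3 := Finset.sum_le_sum fun i (_ : i ∈ (Finset.univ : Finset I)) => h2 i
      rw [← Finset.sum_mul, has, one_mul] at h3
      refine h3.trans (le_of_eq ?_)
      have h4 : dir p.2 * ((∑ i, (a i : ℂ) * (σ i).χ (φ j p.1)) - χ p.1) =
          ∑ i, (a i : ℂ) * (dir p.2 * ((σ i).χ (φ j p.1) - χ p.1)) := by
        have h5 : χ p.1 = ∑ i, (a i : ℂ) * χ p.1 := by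
          rw [← Finset.sum_mul]
          have : ∑ i, (a i : ℂ) = 1 := by exact_mod_cast has
          rw [this, one_mul]
        conv_lhs => rw [h5]
        rw [← Finset.sum_sub_distrib, Finset.mul_sum]
        refine Finset.sum_congr rfl fun i _ => by ring
      rw [h4, Complex.re_sum]
      refine Finset.sum_congr rfl fun i _ => ?_
      rw [Complex.re_ofReal_mul]
  choose l α β hα hβ hαn hβn hαβ hl using hsplit
  -- an ultrafilter
  have hNe : NeBot (atTop ⊓ 𝓟 {j | ∀ σ : FRep (Q j), σ.Irred →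
      ∃ g ∈ E, ε < ‖σ.χ (φ j g) - χ g‖}) := Filter.frequently_mem_iff_neBot.1 hfreq
  obtain ⟨V, hV⟩ := Ultrafilter.exists_le (atTop ⊓ 𝓟 {j | ∀ σ : FRep (Q j), σ.Irred →
      ∃ g ∈ E, ε < ‖σ.χ (φ j g) - χ g‖})
  have hV1 : (V : Filter ℕ) ≤ atTop := hV.trans inf_le_left
  have hV2 : ∀ᶠ j in (V : Filter ℕ), ∀ σ : FRep (Q j), σ.Irred →
      ∃ g ∈ E, ε < ‖σ.χ (φ j g) - χ g‖ := (hV.trans inf_le_right) (Filter.mem_principal_self _)
  have hlimα : ∀ g, ∃ a, Tendsto (fun j => α j (φ j g)) V (𝓝 a) := fun g =>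
    exists_lim ⟨1, fun j => hαn j _⟩
  have hlimβ : ∀ g, ∃ a, Tendsto (fun j => β j (φ j g)) V (𝓝 a) := fun g =>
    exists_lim ⟨1, fun j => hβn j _⟩
  choose a ha using hlimα
  choose b hb using hlimβ
  have haC := isChar_of_tendsto φ hV1 hmul α hα a ha
  have hbC := isChar_of_tendsto φ hV1 hmul β hβ b hb
  have hL : (1 : ℝ) < Fintype.card L := by exact_mod_cast Fintype.one_lt_card
  have hL0 : (0 : ℝ) < Fintype.card L := by linarith
  have hext := hχ.2 a b (1 / Fintype.card L) haC hbC (by positivity) (by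
    rw [div_lt_one hL0]; exact hL) (by
    intro g
    have h1 : Tendsto (fun j => ((1 / Fintype.card L : ℝ) : ℂ) * α j (φ j g) +
        (1 - ((1 / Fintype.card L : ℝ) : ℂ)) * β j (φ j g)) V
        (𝓝 (((1 / Fintype.card L : ℝ) : ℂ) * a g + (1 - ((1 / Fintype.card L : ℝ) : ℂ)) * b g)) :=
      ((ha g).const_mul _).add ((hb g).const_mul _)
    have h2 : Tendsto (fun j => (π j).χ (φ j g)) V (𝓝 (χ g)) := (hπ g).mono_left hV1
    refine tendsto_nhds_unique h2 (h1.congr fun j => ?_)
    exact (hαβ j _).symm)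
  -- a constant label
  obtain ⟨p, hp⟩ : ∃ p : E × Fin 4, ∀ᶠ j in (V : Filter ℕ), l j = some p := by
    by_contra hcon
    push Not at hcon
    have h1 : ∀ p : E × Fin 4, ∀ᶠ j in (V : Filter ℕ), l j ≠ some p := hcon
    have h2 := Filter.eventually_all.2 h1
    obtain ⟨j, h3, h4⟩ := (h2.and hV2).exists
    obtain ⟨p, hp, -⟩ := hl j h4
    exact h3 p hp
  have h5 : Tendsto (fun j => (dir p.2 * (α j (φ j p.1) - χ p.1)).re) V
      (𝓝 (dir p.2 * (a p.1 - χ p.1)).re) :=
    (Complex.continuous_re.tendsto _).comp (((ha p.1).sub_const _).const_mul _)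
  have h6 : ε / 2 ≤ (dir p.2 * (a p.1 - χ p.1)).re := by
    refine ge_of_tendsto h5 ?_
    filter_upwards [hp, hV2] with j h7 h8
    obtain ⟨p', hp', h9⟩ := hl j h8
    rw [h7] at hp'
    have : p = p' := Option.some.inj hp'
    rw [this]
    exact h9
  rw [hext, sub_self, mul_zero, Complex.zero_re] at h6
  linarith

end Helper51.MU
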