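import Pool.Agent.Helper51.MU.Norms

/-!
# The tracial matrix ultraproduct
-/

namespace Helper51.MU

open Filter Topology
open scoped Matrix.Norms.L2Operator

variable (ι : ℕ → Type) [∀ n, Fintype (ι n)] [∀ n, DecidableEq (ι n)]

/-- The *-algebra of operator-norm bounded sequences `(x n)`, `x n` a complex matrix with rows and
columns indexed by `ι n`. -/
noncomputable def Bdd : StarSubalgebra ℂ (∀ n, Matrix (ι n) (ι n) ℂ) where
  carrier := {x | ∃ C : ℝ, ∀ n, ‖x n‖ ≤ C}
  mul_mem' := by
    rintro a b ⟨C, hC⟩ ⟨D, hD⟩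
    exact ⟨C * D, fun n => (norm_mul_le _ _).trans
      (mul_le_mul (hC n) (hD n) (norm_nonneg _) ((norm_nonneg _).trans (hC n)))⟩
  add_mem' := by
    rintro a b ⟨C, hC⟩ ⟨D, hD⟩
    exact ⟨C + D, fun n => (norm_add_le _ _).trans (add_le_add (hC n) (hD n))⟩
  algebraMap_mem' := by
    intro c
    refine ⟨‖c‖ * 1, fun n => ?_⟩
    have : (algebraMap ℂ (∀ n, Matrix (ι n) (ι n) ℂ) c) n = c • (1 : Matrix (ι n) (ι n) ℂ) := by
      rw [Pi.algebraMap_apply, Algebra.algebraMap_eq_smul_one]
    rw [this, norm_smul]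
    gcongr
    rcases isEmpty_or_nonempty (ι n) with h | h
    · have : (1 : Matrix (ι n) (ι n) ℂ) = 0 := Subsingleton.elim _ _
      rw [this, norm_zero]
      exact zero_le_one
    · exact le_of_eq CStarRing.norm_one
  star_mem' := by
    rintro a ⟨C, hC⟩
    exact ⟨C, fun n => by rw [Pi.star_apply, norm_star]; exact hC n⟩

/-- The type of operator-norm bounded sequences. -/
def BSeq : Type := Bdd ι

noncomputable instance : Ring (BSeq ι) := (Bdd ι).toRing

noncomputable instance : StarRing (BSeq ι) := (Bdd ι).starRing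

noncomputable instance : Algebra ℂ (BSeq ι) := (Bdd ι).algebra

variable (U : Ultrafilter ℕ)

/-- The bounded sequences that tend to `0` in the normalized 2-norm along `U`. -/
noncomputable def Null : Ideal (BSeq ι) where
  carrier := {x | Tendsto (fun n => nn (x.1 n)) U (𝓝 0)}
  add_mem' := by
    intro a b ha hb
    have h : Tendsto (fun n => 2 * nn (a.1 n) + 2 * nn (b.1 n)) U (𝓝 0) := by
      simpa using (ha.const_mul 2).add (hb.const_mul 2)
    exact squeeze_zero (fun n => nn_nonneg _) (fun n => nn_add_le _ _) h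
  zero_mem' := by
    have : ∀ n, nn ((0 : BSeq ι).1 n) = 0 := fun n => by
      show nn (0 : Matrix (ι n) (ι n) ℂ) = 0
      simp [nn, hs]
    simp only [Set.mem_ofPred_eq, this]
    exact tendsto_const_nhds
  smul_mem' := by
    rintro ⟨a, C, hC⟩ b hb
    have h : Tendsto (fun n => C ^ 2 * nn (b.1 n)) U (𝓝 0) := by
      simpa using (Filter.Tendsto.const_mul (C ^ 2) hb)
    refine squeeze_zero (fun n => nn_nonneg _) (fun n => ?_) h
    refine (nn_mul_le_left (a n) (b.1 n)).trans ?_
    gcongr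
    · exact nn_nonneg _
    · exact hC n

instance : (Null ι U).IsTwoSided := by
  constructor
  rintro a ⟨b, C, hC⟩ ha
  have h : Tendsto (fun n => C ^ 2 * nn (a.1 n)) U (𝓝 0) := by
    simpa using (Filter.Tendsto.const_mul (C ^ 2) ha)
  refine squeeze_zero (fun n => nn_nonneg _) (fun n => ?_) h
  refine (nn_mul_le_right (a.1 n) (b n)).trans ?_
  gcongr
  · exact nn_nonneg _
  · exact hC n

/-- The tracial matrix ultraproduct: bounded sequences of matrices modulo the sequences that
tend to `0` in the normalized 2-norm along the ultrafilter `U`. -/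
def MUlt : Type := BSeq ι ⧸ Null ι U

noncomputable instance : Ring (MUlt ι U) := Ideal.Quotient.ring (Null ι U)

noncomputable instance : Algebra ℂ (MUlt ι U) := Ideal.Quotient.algebra ℂ

variable {ι} in
/-- The class of a bounded sequence in the ultraproduct. -/
noncomputable def mkM : BSeq ι →+* MUlt ι U := Ideal.Quotient.mk (Null ι U)

variable {ι U}

lemma mem_null {x : BSeq ι} : x ∈ Null ι U ↔ Tendsto (fun n => nn (x.1 n)) U (𝓝 0) := Iff.rfl

lemma mk_eq_mk {x y : BSeq ι} : (mkM U x = mkM U y) ↔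
    Tendsto (fun n => nn (x.1 n - y.1 n)) U (𝓝 0) := by
  show (Ideal.Quotient.mk (Null ι U) x = Ideal.Quotient.mk (Null ι U) y) ↔ _
  rw [Ideal.Quotient.mk_eq_mk_iff_sub_mem]
  rfl

lemma mkM_surjective : Function.Surjective (mkM U : BSeq ι →+* MUlt ι U) :=
  Ideal.Quotient.mk_surjective

lemma mk_star_eq {a b : BSeq ι} (h : mkM U a = mkM U b) : mkM U (star a) = mkM U (star b) := by
  rw [mk_eq_mk] at h ⊢
  refine h.congr fun n => ?_
  rw [← nn_conjTranspose]
  congr 1
  show _ = star (a.1 n) - star (b.1 n)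
  rw [Matrix.conjTranspose_sub]
  rfl

/-- The adjoint on the matrix ultraproduct is induced by the entrywise adjoint of sequences. -/
noncomputable instance : Star (MUlt ι U) where
  star := Quotient.lift (fun x : BSeq ι => mkM U (star x)) fun _ _ h =>
    mk_star_eq (Quotient.sound h)

lemma star_mk (x : BSeq ι) : star (mkM U x) = mkM U (star x) := rfl

noncomputable instance : StarRing (MUlt ι U) where
  star_involutive := by
    intro x
    obtain ⟨x, rfl⟩ := mkM_surjective x
    rw [star_mk, star_mk, star_star]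
  star_mul := by
    intro x y
    obtain ⟨x, rfl⟩ := mkM_surjective x
    obtain ⟨y, rfl⟩ := mkM_surjective y
    rw [← map_mul, star_mk, star_mul, map_mul]
    rfl
  star_add := by
    intro x y
    obtain ⟨x, rfl⟩ := mkM_surjective x
    obtain ⟨y, rfl⟩ := mkM_surjective y
    rw [← map_add, star_mk, star_add, map_add]
    rfl

lemma bounded_ntr (x : BSeq ι) : ∃ C : ℝ, ∀ n, ‖ntr (x.1 n)‖ ≤ C := by
  obtain ⟨x, C, hC⟩ := x
  refine ⟨C, fun n => ?_⟩
  have h0 : 0 ≤ C := (norm_nonneg _).trans (hC n)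
  have h1 := (norm_ntr_sq_le (x n)).trans (nn_le_norm_sq (x n))
  have h2 : ‖ntr (x n)‖ ≤ ‖x n‖ := by
    nlinarith [norm_nonneg (ntr (x n)), norm_nonneg (x n)]
  exact h2.trans (hC n)

lemma tendsto_ntr (x : BSeq ι) :
    Tendsto (fun n => ntr (x.1 n)) U (𝓝 (limUnder (U : Filter ℕ) fun n => ntr (x.1 n))) :=
  tendsto_nhds_limUnder (exists_lim (bounded_ntr x))

lemma lim_eq_of_mk_eq {a b : BSeq ι} (h : mkM U a = mkM U b) :
    (limUnder (U : Filter ℕ) fun n => ntr (a.1 n)) =
      limUnder (U : Filter ℕ) fun n => ntr (b.1 n) := by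
  rw [mk_eq_mk] at h
  have h2 : Tendsto (fun n => ntr (a.1 n - b.1 n)) U (𝓝 0) := tendsto_zero_of_nn h
  have h3 := (tendsto_ntr (U := U) b).add h2
  rw [add_zero] at h3
  have h4 : Tendsto (fun n => ntr (a.1 n)) U (𝓝 (limUnder (U : Filter ℕ)
      fun n => ntr (b.1 n))) := by
    refine h3.congr fun n => ?_
    rw [ntr_sub]
    ring
  exact h4.limUnder_eq

/-- The trace of the matrix ultraproduct: `τ((x n)) = lim_U τ_n (x n)`. -/
noncomputable def tr : MUlt ι U → ℂ :=
  Quotient.lift (fun x : BSeq ι => limUnder (U : Filter ℕ) fun n => ntr (x.1 n)) fun _ _ h =>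
    lim_eq_of_mk_eq (Quotient.sound h)

lemma tr_mk (x : BSeq ι) : tr (mkM U x) =
    limUnder (U : Filter ℕ) fun n => ntr (x.1 n) := rfl

lemma tr_mk_eq {x : BSeq ι} {a : ℂ} (h : Tendsto (fun n => ntr (x.1 n)) U (𝓝 a)) :
    tr (mkM U x) = a := h.limUnder_eq

end Helper51.MU
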