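import Pool.Agent.Helper51.MU.Irred

/-!
# Spectral gap for the adjoint action of an irreducible representation
-/

set_option linter.unusedSectionVars false

namespace Helper51.MU

open Filter Topology
open scoped Matrix.Norms.L2Operator

variable {Q : Type} [Group Q] [TopologicalSpace Q]

/-- Complex conjugate representation. -/
noncomputable def conjRep {ι : Type} [Fintype ι] [DecidableEq ι]
    (ρ : Q →* Matrix.unitaryGroup ι ℂ) : Q →* Matrix.unitaryGroup ι ℂ where
  toFun q := ⟨(starRingEnd ℂ).mapMatrix (ρ q : Matrix ι ι ℂ), by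
    have h := Matrix.mem_unitaryGroup_iff.1 (ρ q).2
    rw [Matrix.mem_unitaryGroup_iff]
    have h1 : star ((starRingEnd ℂ).mapMatrix (ρ q : Matrix ι ι ℂ)) =
        (starRingEnd ℂ).mapMatrix (star (ρ q : Matrix ι ι ℂ)) := by
      ext i j
      simp [Matrix.star_apply]
    rw [h1, ← map_mul, h, map_one]⟩
  map_one' := by
    apply Subtype.ext
    simp
  map_mul' a b := by
    apply Subtype.ext
    simp

lemma continuous_conjRep {ι : Type} [Fintype ι] [DecidableEq ι]
    (ρ : Q →* Matrix.unitaryGroup ι ℂ) (h : Continuous ρ) : Continuous (conjRep ρ) := by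
  refine Continuous.subtype_mk ?_ _
  refine continuous_matrix fun i j => ?_
  have h1 : Continuous fun q => (ρ q : Matrix ι ι ℂ) i j :=
    (continuous_subtype_val.comp h).matrix_elem _ _
  exact Complex.continuous_conj.comp h1

lemma continuous_tens {ι κ : Type} [Fintype ι] [DecidableEq ι] [Fintype κ] [DecidableEq κ]
    (ρ : Q →* Matrix.unitaryGroup ι ℂ) (σ : Q →* Matrix.unitaryGroup κ ℂ)
    (h1 : Continuous ρ) (h2 : Continuous σ) : Continuous (FRep.tens ρ σ) := by
  refine Continuous.subtype_mk ?_ _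
  refine continuous_matrix fun i j => ?_
  have h1 : Continuous fun q => (ρ q : Matrix ι ι ℂ) i.1 j.1 :=
    (continuous_subtype_val.comp h1).matrix_elem _ _
  have h2 : Continuous fun q => (σ q : Matrix κ κ ℂ) i.2 j.2 :=
    (continuous_subtype_val.comp h2).matrix_elem _ _
  exact h1.mul h2

lemma tens_conj_mulVec {ι : Type} [Fintype ι] [DecidableEq ι]
    (ρ : Q →* Matrix.unitaryGroup ι ℂ) (q : Q) (v : ι × ι → ℂ) (i j : ι) :
    ((FRep.tens ρ (conjRep ρ) q : Matrix (ι × ι) (ι × ι) ℂ).mulVec v) (i, j) =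
      ((ρ q : Matrix ι ι ℂ) * (Matrix.of fun k l => v (k, l)) *
        star (ρ q : Matrix ι ι ℂ)) i j := by
  rw [Matrix.mul_apply]
  simp only [Matrix.mulVec, dotProduct, Matrix.mul_apply, Fintype.sum_prod_type, Finset.sum_mul]
  rw [Finset.sum_comm]
  refine Finset.sum_congr rfl fun l _ => Finset.sum_congr rfl fun k _ => ?_
  simp only [FRep.tens, conjRep, MonoidHom.coe_mk, OneHom.coe_mk, Matrix.kroneckerMap_apply,
    RingHom.mapMatrix_apply, Matrix.map_apply, Matrix.of_apply, Matrix.star_apply]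
  rw [starRingEnd_apply]
  ring

lemma hs_mul_unitary {ι : Type} [Fintype ι] [DecidableEq ι] (x u : Matrix ι ι ℂ)
    (hu : u ∈ Matrix.unitaryGroup ι ℂ) : hs (x * u) = hs x := by
  have key : ∀ (a b : Matrix ι ι ℂ), b ∈ Matrix.unitaryGroup ι ℂ → hs (a * b) ≤ hs a := by
    intro a b hb
    refine (hs_mul_le_right a b).trans ?_
    rcases isEmpty_or_nonempty ι with h | h
    · simp [hs]
    · have : ‖b‖ = 1 := CStarRing.norm_of_mem_unitary hb
      rw [this]
      simp
  refine le_antisymm (key x u hu) ?_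
  have h1 : x = x * u * star u := by
    rw [mul_assoc, Matrix.mem_unitaryGroup_iff.1 hu, mul_one]
  calc hs x = hs (x * u * star u) := by rw [← h1]
    _ ≤ hs (x * u) := key _ _ (Unitary.star_mem hu)

/-- Spectral gap for the adjoint action of an irreducible representation. -/
lemma gap_adjoint {G : Type} {S : Finset G} {c : ℝ} {f : G → Q} (hgap : Gap S c Q f)
    (π : FRep Q) (hπ : π.Irred) (y : Matrix π.ι π.ι ℂ) :
    c * hs (y - ntr y • (1 : Matrix π.ι π.ι ℂ)) ≤
      ∑ s ∈ S, hs ((π.ρ (f s) : Matrix π.ι π.ι ℂ) * y - y * (π.ρ (f s) : Matrix π.ι π.ι ℂ)) := by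
  set z : Matrix π.ι π.ι ℂ := y - ntr y • (1 : Matrix π.ι π.ι ℂ) with hz
  have htrz : ∑ i, z i i = 0 := by
    have h1 : ntr z = 0 := by
      rw [hz, ntr_sub, ntr_smul, ntr_one, mul_one, sub_self]
    unfold ntr at h1
    have e0 : (Fintype.card π.ι : ℂ) ≠ 0 := by exact_mod_cast Fintype.card_ne_zero
    rcases div_eq_zero_iff.1 h1 with h | h
    · exact h
    · exact absurd h e0
  have h := hgap (π.ι × π.ι) (FRep.tens π.ρ (conjRep π.ρ))
    (continuous_tens _ _ π.cont (continuous_conjRep _ π.cont)) (fun p => z p.1 p.2) (by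
      intro w hw
      -- invariant vectors are scalars
      have hcomm : ∀ q, (π.ρ q : Matrix π.ι π.ι ℂ) * (Matrix.of fun k l => w (k, l)) =
          (Matrix.of fun k l => w (k, l)) * (π.ρ q : Matrix π.ι π.ι ℂ) := by
        intro q
        have h1 : (π.ρ q : Matrix π.ι π.ι ℂ) * (Matrix.of fun k l => w (k, l)) *
            star (π.ρ q : Matrix π.ι π.ι ℂ) = (Matrix.of fun k l => w (k, l)) := by
          ext i j
          rw [← tens_conj_mulVec, hw q]
          rfl
        calc (π.ρ q : Matrix π.ι π.ι ℂ) * (Matrix.of fun k l => w (k, l))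
            = (π.ρ q : Matrix π.ι π.ι ℂ) * (Matrix.of fun k l => w (k, l)) *
              (star (π.ρ q : Matrix π.ι π.ι ℂ) * (π.ρ q : Matrix π.ι π.ι ℂ)) := by
              rw [Matrix.mem_unitaryGroup_iff'.1 (π.ρ q).2, mul_one]
          _ = ((π.ρ q : Matrix π.ι π.ι ℂ) * (Matrix.of fun k l => w (k, l)) *
              star (π.ρ q : Matrix π.ι π.ι ℂ)) * (π.ρ q : Matrix π.ι π.ι ℂ) := by
              simp only [mul_assoc]
          _ = _ := by rw [h1]
      obtain ⟨a, ha⟩ := hπ _ hcomm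
      have hw2 : ∀ i j, w (i, j) = a * (1 : Matrix π.ι π.ι ℂ) i j := by
        intro i j
        have := congrFun (congrFun ha i) j
        simpa using this
      rw [Fintype.sum_prod_type]
      have : ∀ i, ∑ j, star (w (i, j)) * z i j = star a * z i i := by
        intro i
        rw [Finset.sum_eq_single i]
        · rw [hw2]; simp
        · intro j _ hj
          rw [hw2, Matrix.one_apply_ne hj.symm]; simp
        · simp
      simp only [this]
      rw [← Finset.mul_sum, htrz, mul_zero])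
  have e1 : ∑ p : π.ι × π.ι, ‖z p.1 p.2‖ ^ 2 = hs z := by
    rw [Fintype.sum_prod_type]
    rfl
  rw [e1] at h
  refine h.trans (le_of_eq ?_)
  refine Finset.sum_congr rfl fun s _ => ?_
  have hU := (π.ρ (f s)).2
  have e2 : ∀ i j, ((FRep.tens π.ρ (conjRep π.ρ) (f s) : Matrix (π.ι × π.ι) (π.ι × π.ι) ℂ).mulVec
      (fun p : π.ι × π.ι => z p.1 p.2) - fun p : π.ι × π.ι => z p.1 p.2) (i, j) =
      ((π.ρ (f s) : Matrix π.ι π.ι ℂ) * z * star (π.ρ (f s) : Matrix π.ι π.ι ℂ) - z) i j := by
    intro i j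
    rw [Pi.sub_apply, tens_conj_mulVec]
    rfl
  rw [Fintype.sum_prod_type]
  have e3 : ∑ i, ∑ j, ‖((FRep.tens π.ρ (conjRep π.ρ) (f s) :
      Matrix (π.ι × π.ι) (π.ι × π.ι) ℂ).mulVec
      (fun p : π.ι × π.ι => z p.1 p.2) - fun p : π.ι × π.ι => z p.1 p.2) (i, j)‖ ^ 2 =
      hs ((π.ρ (f s) : Matrix π.ι π.ι ℂ) * z * star (π.ρ (f s) : Matrix π.ι π.ι ℂ) - z) := by
    unfold hs
    simp only [e2]
  rw [e3, ← hs_mul_unitary _ _ hU, sub_mul, mul_assoc, Matrix.mem_unitaryGroup_iff'.1 hU, mul_one,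
    hz, mul_sub, sub_mul]
  congr 1
  rw [mul_smul_comm, smul_mul_assoc, mul_one, one_mul]
  abel

end Helper51.MU
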