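import Pool.Agent.Helper51.MU.Char

/-!
# Good finite-dimensional models
-/

set_option linter.unusedSectionVars false

namespace Helper51.MU

open Filter Topology
open scoped Matrix.Norms.L2Operator

namespace FRep

variable {Q : Type} [Group Q] [TopologicalSpace Q]

/-- A nonsingular Gram matrix forces a large dimension. -/
lemma card_le_of_gram (π : FRep Q) {M : ℕ} (q : Fin M → Q)
    (h : (Matrix.of fun a b => π.χ ((q a)⁻¹ * q b)).det ≠ 0) :
    M ≤ Fintype.card π.ι * Fintype.card π.ι := by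
  classical
  have hli : LinearIndependent ℂ fun a => (π.ρ (q a) : Matrix π.ι π.ι ℂ) := by
    rw [Fintype.linearIndependent_iff]
    intro c hc
    have h1 : (Matrix.of fun a b => π.χ ((q a)⁻¹ * q b)).mulVec c = 0 := by
      funext b
      show ∑ a, π.χ ((q b)⁻¹ * q a) * c a = 0
      have h2 : ntr (star (π.ρ (q b) : Matrix π.ι π.ι ℂ) *
          ∑ a, c a • (π.ρ (q a) : Matrix π.ι π.ι ℂ)) = 0 := by
        rw [hc, mul_zero]
        simp [ntr]
      rw [Finset.mul_sum, ntr_sum] at h2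
      rw [← h2]
      refine Finset.sum_congr rfl fun a _ => ?_
      rw [mul_smul_comm, ntr_smul, mul_comm]
      unfold χ
      rw [map_mul, map_inv]
      rfl
    have h3 := Matrix.eq_zero_of_mulVec_eq_zero h h1
    intro i
    rw [h3]
    rfl
  have := hli.fintype_card_le_finrank
  rwa [Fintype.card_fin, Module.finrank_matrix, Module.finrank_self, mul_one] at this

end FRep

variable {G : Type} [Group G]

/-- A good finite-dimensional model of the character `χ` of `G` on the finite set `E`, with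
error `ε`. -/
structure Good (χ : G → ℂ) (S : Finset G) (c : ℝ) (E : Finset G) (ε : ℝ) (n : ℕ)
    (w : G → Matrix.unitaryGroup (Fin n) ℂ) : Prop where
  mul : ∀ g ∈ E, ∀ h ∈ E, w (g * h) = w g * w h
  close : ∀ g ∈ E, ‖ntr (w g : Matrix (Fin n) (Fin n) ℂ) - χ g‖ ≤ ε
  gap : ∀ y : Matrix (Fin n) (Fin n) ℂ, c * hs (y - ntr y • (1 : Matrix (Fin n) (Fin n) ℂ)) ≤
    ∑ s ∈ S, hs ((w s : Matrix (Fin n) (Fin n) ℂ) * y - y * (w s : Matrix (Fin n) (Fin n) ℂ))

section reindex

variable {ι κ : Type} [Fintype ι] [DecidableEq ι] [Fintype κ] [DecidableEq κ] (e : ι ≃ κ)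

/-- Transport of a unitary matrix along a bijection of index sets. -/
noncomputable def reU (u : Matrix.unitaryGroup ι ℂ) : Matrix.unitaryGroup κ ℂ :=
  ⟨(u : Matrix ι ι ℂ).submatrix e.symm e.symm, by
    rw [Matrix.mem_unitaryGroup_iff, Matrix.star_eq_conjTranspose,
      Matrix.conjTranspose_submatrix, Matrix.submatrix_mul_equiv, ← Matrix.star_eq_conjTranspose,
      Matrix.mem_unitaryGroup_iff.1 u.2, Matrix.submatrix_one_equiv]⟩

lemma reU_mul (u v : Matrix.unitaryGroup ι ℂ) : reU e (u * v) = reU e u * reU e v := by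
  apply Subtype.ext
  show ((u : Matrix ι ι ℂ) * (v : Matrix ι ι ℂ)).submatrix e.symm e.symm = _ * _
  rw [← Matrix.submatrix_mul_equiv _ _ e.symm e.symm e.symm]
  rfl

lemma hs_submatrix (x : Matrix ι ι ℂ) : hs (x.submatrix e.symm e.symm) = hs x := by
  unfold hs
  simp only [Matrix.submatrix_apply]
  rw [← Equiv.sum_comp e.symm (fun i => ∑ j, ‖x i j‖ ^ 2)]
  exact Finset.sum_congr rfl fun i _ => Equiv.sum_comp e.symm fun j => ‖x (e.symm i) j‖ ^ 2

lemma ntr_submatrix (x : Matrix ι ι ℂ) : ntr (x.submatrix e.symm e.symm) = ntr x := by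
  unfold ntr
  simp only [Matrix.submatrix_apply]
  rw [Equiv.sum_comp e.symm (fun i => x i i), Fintype.card_congr e]

end reindex

variable {Q : ℕ → Type} [∀ j, Group (Q j)] [∀ j, TopologicalSpace (Q j)] {φ : ∀ j, G → Q j}

/-- Irreducible representations of the groups `Q j` that approximate the character `χ`. -/
def IrrClose (χ : G → ℂ) (φ : ∀ j, G → Q j) : Prop :=
  ∀ (E : Finset G) (ε : ℝ), 0 < ε →
    ∀ᶠ j in atTop, ∃ σ : FRep (Q j), σ.Irred ∧ ∀ g ∈ E, ‖σ.χ (φ j g) - χ g‖ ≤ ε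

lemma det_ne_zero_nhds {M : ℕ} (A : Fin M → Fin M → ℂ) (h : (Matrix.of A).det ≠ 0) :
    ∃ δ > 0, ∀ B : Fin M → Fin M → ℂ, (∀ a b, ‖B a b - A a b‖ ≤ δ) → (Matrix.of B).det ≠ 0 := by
  have hc : Continuous fun B : Fin M → Fin M → ℂ => (Matrix.of B).det := by
    refine Continuous.matrix_det ?_
    exact continuous_id
  have ho : IsOpen {B : Fin M → Fin M → ℂ | (Matrix.of B).det ≠ 0} :=
    isOpen_ne_fun hc continuous_const
  obtain ⟨δ, hδ, hball⟩ := Metric.isOpen_iff.1 ho A h
  refine ⟨δ / 2, by positivity, fun B hB => ?_⟩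
  apply hball
  rw [Metric.mem_ball]
  refine (dist_pi_le_iff (by positivity)).2 (fun a => (dist_pi_le_iff (by positivity)).2
    fun b => ?_) |>.trans_lt (half_lt_self hδ)
  rw [dist_eq_norm]
  exact hB a b

lemma exists_good (H : AMul φ) (χ : G → ℂ) (hclose : IrrClose χ φ) (hinf : InfiniteDim χ)
    {S : Finset G} {c : ℝ} (hgap : ∀ j, Gap S c (Q j) (φ j)) (E : Finset G) {ε : ℝ} (hε : 0 < ε)
    (N : ℕ) :
    ∃ n, N ≤ n ∧ ∃ w : G → Matrix.unitaryGroup (Fin n) ℂ, Good χ S c E ε n w := by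
  classical
  set M : ℕ := N * N + 1 with hM
  obtain ⟨g, hg⟩ := hinf M
  obtain ⟨δ, hδ, hdet⟩ := det_ne_zero_nhds _ hg
  let E' : Finset G := E ∪ (Finset.univ : Finset (Fin M × Fin M)).image
    (fun p => (g p.1)⁻¹ * g p.2)
  have ev1 := hclose E' (min ε δ) (lt_min hε hδ)
  have ev2 : ∀ᶠ j in atTop, ∀ a ∈ E, ∀ b ∈ E, φ j (a * b) = φ j a * φ j b := by
    rw [Filter.eventually_all_finset]
    intro a _
    rw [Filter.eventually_all_finset]
    intro b _
    exact H a b
  have ev3 : ∀ᶠ j in atTop, ∀ p ∈ (Finset.univ : Finset (Fin M × Fin M)),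
      φ j ((g p.1)⁻¹ * g p.2) = (φ j (g p.1))⁻¹ * φ j (g p.2) := by
    rw [Filter.eventually_all_finset]
    intro p _
    filter_upwards [H (g p.1)⁻¹ (g p.2), H.inv (g p.1)] with j h1 h2
    rw [h1, h2]
  obtain ⟨j, ⟨π, hirr, hsmall⟩, h2, h3⟩ := (ev1.and (ev2.and ev3)).exists
  have hcard : M ≤ Fintype.card π.ι * Fintype.card π.ι := by
    refine π.card_le_of_gram (fun a => φ j (g a)) ?_
    refine hdet _ fun a b => ?_
    have h4 := h3 (a, b) (Finset.mem_univ _)
    rw [← h4]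
    exact (hsmall _ (Finset.mem_union_right _
      (Finset.mem_image.2 ⟨(a, b), Finset.mem_univ _, rfl⟩))).trans (min_le_right _ _)
  have hN : N ≤ Fintype.card π.ι := by
    by_contra hcon
    push Not at hcon
    have : Fintype.card π.ι * Fintype.card π.ι ≤ N * N := Nat.mul_le_mul hcon.le hcon.le
    omega
  refine ⟨Fintype.card π.ι, hN, fun a => reU (Fintype.equivFin π.ι) (π.ρ (φ j a)), ?_, ?_, ?_⟩
  · intro a ha b hb
    rw [h2 a ha b hb, map_mul, reU_mul]
  · intro a ha
    have h5 := hsmall a (Finset.mem_union_left _ ha)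
    show ‖ntr ((π.ρ (φ j a) : Matrix π.ι π.ι ℂ).submatrix _ _) - χ a‖ ≤ ε
    rw [ntr_submatrix]
    exact h5.trans (min_le_left _ _)
  · intro y
    set e := Fintype.equivFin π.ι with he
    obtain ⟨y', hy'⟩ : ∃ y' : Matrix π.ι π.ι ℂ, y = y'.submatrix e.symm e.symm :=
      ⟨y.submatrix e e, by simp⟩
    have h6 := gap_adjoint (hgap j) π hirr y'
    have e1 : y - ntr y • (1 : Matrix (Fin (Fintype.card π.ι)) (Fin (Fintype.card π.ι)) ℂ) =
        (y' - ntr y' • (1 : Matrix π.ι π.ι ℂ)).submatrix e.symm e.symm := by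
      rw [hy', ntr_submatrix]
      ext a b
      simp [Matrix.one_apply]
    have e2 : ∀ s, ((reU e (π.ρ (φ j s)) : Matrix.unitaryGroup _ ℂ) : Matrix _ _ ℂ) * y -
        y * ((reU e (π.ρ (φ j s)) : Matrix.unitaryGroup _ ℂ) : Matrix _ _ ℂ) =
        ((π.ρ (φ j s) : Matrix π.ι π.ι ℂ) * y' - y' * (π.ρ (φ j s) : Matrix π.ι π.ι ℂ)).submatrix
          e.symm e.symm := by
      intro s
      rw [hy', Matrix.submatrix_sub]
      show (π.ρ (φ j s) : Matrix π.ι π.ι ℂ).submatrix e.symm e.symm *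
        y'.submatrix e.symm e.symm - y'.submatrix e.symm e.symm *
        (π.ρ (φ j s) : Matrix π.ι π.ι ℂ).submatrix e.symm e.symm = _
      rw [Matrix.submatrix_mul_equiv, Matrix.submatrix_mul_equiv]
      rfl
    rw [e1, hs_submatrix]
    simp only [e2, hs_submatrix]
    exact h6

lemma delta_one : delta (1 : G) = 1 := by simp [delta]

lemma delta_ne {g : G} (h : g ≠ 1) : delta g = 0 := by simp [delta, h]

lemma infiniteDim_delta [Infinite G] : InfiniteDim (delta : G → ℂ) := by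
  intro M
  refine ⟨fun a => Infinite.natEmbedding G a, ?_⟩
  have : (Matrix.of fun a b : Fin M => delta ((Infinite.natEmbedding G a)⁻¹ *
      Infinite.natEmbedding G b)) = 1 := by
    ext a b
    by_cases hab : a = b
    · subst hab
      rw [Matrix.of_apply, inv_mul_cancel, delta_one, Matrix.one_apply_eq]
    · rw [Matrix.of_apply, Matrix.one_apply_ne hab]
      refine delta_ne fun h => hab ?_
      exact Fin.ext ((Infinite.natEmbedding G).injective (inv_mul_eq_one.1 h))
  rw [this, Matrix.det_one]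
  exact one_ne_zero

lemma irrClose_delta (H : AMul φ) (Hs : Separating φ)
    (hicc : ∀ g : G, g ≠ 1 → (conjugatesOf g).Infinite) : IrrClose (delta : G → ℂ) φ := by
  classical
  intro E ε hε
  filter_upwards [exists_irred_small H Hs hicc (E.erase 1) (Finset.notMem_erase 1 _) hε,
    H.one] with j h1 h2
  obtain ⟨σ, hσ, h3⟩ := h1
  refine ⟨σ, hσ, fun g hg => ?_⟩
  by_cases h : g = 1
  · rw [h, h2, σ.χ_one, delta_one, sub_self, norm_zero]
    exact hε.le
  · rw [delta_ne h, sub_zero]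
    exact h3 g (Finset.mem_erase.2 ⟨h, hg⟩)

end Helper51.MU
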