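import Pool.Agent.Helper51.MU.Reps

/-!
# Existence of irreducible representations with prescribed bound on a linear functional of the
character
-/

set_option linter.unusedSectionVars false

namespace Helper51.MU

open Filter Topology

variable {Q : Type} [Group Q] [TopologicalSpace Q]

namespace FRep

/-- Irreducibility, expressed by Schur: only scalars commute with the representation. -/
def Irred (π : FRep Q) : Prop :=
  ∀ y : Matrix π.ι π.ι ℂ, (∀ q, (π.ρ q : Matrix π.ι π.ι ℂ) * y = y * (π.ρ q : Matrix π.ι π.ι ℂ)) →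
    ∃ c : ℂ, y = c • (1 : Matrix π.ι π.ι ℂ)

lemma split {ι : Type} [Fintype ι] [DecidableEq ι] (ρ : Q →* Matrix.unitaryGroup ι ℂ)
    (hc : Continuous ρ) (p : ι → Prop) [DecidablePred p]
    (hp : ∀ q i j, p i → ¬ p j → (ρ q : Matrix ι ι ℂ) i j = 0) :
    ∃ τ : Q →* Matrix.unitaryGroup {i // p i} ℂ, Continuous τ ∧
      ∀ q, ∑ i, (τ q : Matrix {i // p i} {i // p i} ℂ) i i =
        ∑ i : {i // p i}, (ρ q : Matrix ι ι ℂ) i i := by
  have hmul : ∀ (A B : Matrix ι ι ℂ), (∀ i j, p i → ¬ p j → A i j = 0) →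
      (A * B).submatrix (Subtype.val : {i // p i} → ι) (Subtype.val : {i // p i} → ι) =
      A.submatrix (Subtype.val : {i // p i} → ι) (Subtype.val : {i // p i} → ι) *
      B.submatrix (Subtype.val : {i // p i} → ι) (Subtype.val : {i // p i} → ι) := by
    intro A B hA
    ext i j
    rw [Matrix.submatrix_apply, Matrix.mul_apply, Matrix.mul_apply,
      ← Fintype.sum_subtype_add_sum_subtype p]
    have : ∑ k : {k // ¬ p k}, A i.1 k.1 * B k.1 j.1 = 0 :=
      Finset.sum_eq_zero fun k _ => by rw [hA i.1 k.1 i.2 k.2, zero_mul]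
    rw [this, add_zero]
    rfl
  refine ⟨{ toFun := fun q => ⟨(ρ q : Matrix ι ι ℂ).submatrix Subtype.val Subtype.val, ?_⟩,
            map_one' := ?_, map_mul' := ?_ }, ?_, ?_⟩
  · rw [Matrix.mem_unitaryGroup_iff]
    have h1 := Matrix.mem_unitaryGroup_iff.1 (ρ q).2
    have h2 := hmul (ρ q : Matrix ι ι ℂ) (star (ρ q : Matrix ι ι ℂ)) (hp q)
    rw [h1] at h2
    rw [Matrix.star_eq_conjTranspose, Matrix.conjTranspose_submatrix,
      ← Matrix.star_eq_conjTranspose, ← h2]
    exact Matrix.submatrix_one _ Subtype.val_injective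
  · apply Subtype.ext
    simp only [map_one]
    exact Matrix.submatrix_one _ Subtype.val_injective
  · intro a b
    apply Subtype.ext
    simp only [map_mul]
    exact hmul _ _ (hp a)
  · refine Continuous.subtype_mk ?_ _
    exact (continuous_subtype_val.comp hc).matrix_submatrix _ _
  · intro q
    rfl

lemma card_mul_χ (π : FRep Q) (q : Q) :
    (Fintype.card π.ι : ℂ) * π.χ q = ∑ i, (π.ρ q : Matrix π.ι π.ι ℂ) i i := by
  have e0 : (Fintype.card π.ι : ℂ) ≠ 0 := by exact_mod_cast Fintype.card_ne_zero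
  unfold χ ntr
  rw [mul_div_cancel₀ _ e0]

lemma exists_hermitian_of_not_irred (π : FRep Q) (h : ¬ π.Irred) :
    ∃ y : Matrix π.ι π.ι ℂ, y.IsHermitian ∧
      (∀ q, (π.ρ q : Matrix π.ι π.ι ℂ) * y = y * (π.ρ q : Matrix π.ι π.ι ℂ)) ∧
      ¬ ∃ c : ℂ, y = c • (1 : Matrix π.ι π.ι ℂ) := by
  unfold Irred at h
  push Not at h
  obtain ⟨y, hy, hns⟩ := h
  have hstar : ∀ q, (π.ρ q : Matrix π.ι π.ι ℂ) * y.conjTranspose =
      y.conjTranspose * (π.ρ q : Matrix π.ι π.ι ℂ) := by
    intro q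
    have h1 := congrArg Matrix.conjTranspose (hy q⁻¹)
    rw [Matrix.conjTranspose_mul, Matrix.conjTranspose_mul, map_inv,
      ← Matrix.star_eq_conjTranspose ((π.ρ q)⁻¹ : Matrix.unitaryGroup π.ι ℂ).1,
      ] at h1
    have h2 : star (((π.ρ q)⁻¹ : Matrix.unitaryGroup π.ι ℂ) : Matrix π.ι π.ι ℂ) =
        (π.ρ q : Matrix π.ι π.ι ℂ) := by
      show star (star (π.ρ q : Matrix π.ι π.ι ℂ)) = _
      exact star_star _
    rw [h2] at h1
    exact h1.symm
  by_contra hcon
  push Not at hcon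
  obtain ⟨c1, hc1⟩ := hcon (y + y.conjTranspose) (by
      rw [Matrix.IsHermitian, Matrix.conjTranspose_add, Matrix.conjTranspose_conjTranspose,
        add_comm]) (by
      intro q; rw [mul_add, add_mul, hy, hstar])
  obtain ⟨c2, hc2⟩ := hcon (Complex.I • (y - y.conjTranspose)) (by
      rw [Matrix.IsHermitian, Matrix.conjTranspose_smul, Matrix.conjTranspose_sub,
        Matrix.conjTranspose_conjTranspose]
      simp only [RCLike.star_def, Complex.conj_I, smul_sub, neg_smul]
      abel) (by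
      intro q
      rw [mul_smul_comm, smul_mul_assoc, mul_sub, sub_mul, hy, hstar])
  refine hns ((c1 - Complex.I * c2) / 2) ?_
  have h3 : y = (1 / 2 : ℂ) • ((y + y.conjTranspose) - Complex.I • (Complex.I •
      (y - y.conjTranspose))) := by
    rw [smul_smul, Complex.I_mul_I, neg_one_smul, sub_neg_eq_add, add_add_sub_cancel, ← two_smul ℂ,
      smul_smul]
    norm_num
  rw [h3, hc1, hc2, smul_smul, ← sub_smul, smul_smul]
  congr 1
  ring

/-- Every non-irreducible representation splits into two pieces. -/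
lemma exists_split (π : FRep Q) (h : ¬ π.Irred) :
    ∃ σ τ : FRep Q, Fintype.card σ.ι < Fintype.card π.ι ∧ Fintype.card τ.ι < Fintype.card π.ι ∧
      ∀ q, (Fintype.card π.ι : ℂ) * π.χ q =
        (Fintype.card σ.ι : ℂ) * σ.χ q + (Fintype.card τ.ι : ℂ) * τ.χ q ∧
        (Fintype.card π.ι : ℝ) = Fintype.card σ.ι + Fintype.card τ.ι := by
  classical
  obtain ⟨y, hH, hy, hns⟩ := exists_hermitian_of_not_irred π h
  set V := hH.eigenvectorUnitary with hV
  set lam := hH.eigenvalues with hlam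
  have hspec : y = (V : Matrix π.ι π.ι ℂ) * Matrix.diagonal (RCLike.ofReal ∘ lam) *
      star (V : Matrix π.ι π.ι ℂ) := by
    conv_lhs => rw [hH.spectral_theorem]
    rw [Unitary.conjStarAlgAut_apply]
  have hVV : star (V : Matrix π.ι π.ι ℂ) * (V : Matrix π.ι π.ι ℂ) = 1 :=
    Matrix.mem_unitaryGroup_iff'.1 V.2
  have hVV' : (V : Matrix π.ι π.ι ℂ) * star (V : Matrix π.ι π.ι ℂ) = 1 :=
    Matrix.mem_unitaryGroup_iff.1 V.2
  -- the conjugated representation
  let ρ' : Q →* Matrix.unitaryGroup π.ι ℂ := (MulAut.conj V⁻¹).toMonoidHom.comp π.ρ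
  have hρ' : ∀ q, (ρ' q : Matrix π.ι π.ι ℂ) =
      star (V : Matrix π.ι π.ι ℂ) * (π.ρ q : Matrix π.ι π.ι ℂ) * (V : Matrix π.ι π.ι ℂ) := by
    intro q
    show ((V⁻¹ * π.ρ q * V⁻¹⁻¹ : Matrix.unitaryGroup π.ι ℂ) : Matrix π.ι π.ι ℂ) = _
    rw [inv_inv]
    rfl
  have hcont : Continuous ρ' := by
    rw [continuous_induced_rng]
    have h1 : (Subtype.val ∘ ρ') = fun q => star (V : Matrix π.ι π.ι ℂ) *
        (π.ρ q : Matrix π.ι π.ι ℂ) * (V : Matrix π.ι π.ι ℂ) := funext hρ'
    rw [h1]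
    exact (continuous_const.mul (continuous_subtype_val.comp π.cont)).mul continuous_const
  have htrace : ∀ q, ∑ i, (ρ' q : Matrix π.ι π.ι ℂ) i i =
      ∑ i, (π.ρ q : Matrix π.ι π.ι ℂ) i i := by
    intro q
    have : Matrix.trace (ρ' q : Matrix π.ι π.ι ℂ) = Matrix.trace (π.ρ q : Matrix π.ι π.ι ℂ) := by
      rw [hρ', Matrix.trace_mul_comm, ← mul_assoc, hVV', one_mul]
    exact this
  have hcomm : ∀ q i j, ((lam i : ℂ) - lam j) * (ρ' q : Matrix π.ι π.ι ℂ) i j = 0 := by
    intro q i j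
    have h1 : (ρ' q : Matrix π.ι π.ι ℂ) * Matrix.diagonal (RCLike.ofReal ∘ lam) =
        Matrix.diagonal (RCLike.ofReal ∘ lam) * (ρ' q : Matrix π.ι π.ι ℂ) := by
      have h2 : Matrix.diagonal (RCLike.ofReal ∘ lam) =
          star (V : Matrix π.ι π.ι ℂ) * y * (V : Matrix π.ι π.ι ℂ) := by
        rw [hspec]
        calc Matrix.diagonal (RCLike.ofReal ∘ lam)
            = 1 * Matrix.diagonal (RCLike.ofReal ∘ lam) * 1 := by rw [one_mul, mul_one]
          _ = (star (V : Matrix π.ι π.ι ℂ) * (V : Matrix π.ι π.ι ℂ)) *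
              Matrix.diagonal (RCLike.ofReal ∘ lam) *
              (star (V : Matrix π.ι π.ι ℂ) * (V : Matrix π.ι π.ι ℂ)) := by rw [hVV]
          _ = _ := by simp only [mul_assoc]
      rw [h2, hρ']
      calc star (V : Matrix π.ι π.ι ℂ) * (π.ρ q : Matrix π.ι π.ι ℂ) * (V : Matrix π.ι π.ι ℂ) *
            (star (V : Matrix π.ι π.ι ℂ) * y * (V : Matrix π.ι π.ι ℂ))
          = star (V : Matrix π.ι π.ι ℂ) * (π.ρ q : Matrix π.ι π.ι ℂ) *
            ((V : Matrix π.ι π.ι ℂ) * star (V : Matrix π.ι π.ι ℂ)) * y *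
            (V : Matrix π.ι π.ι ℂ) := by simp only [mul_assoc]
        _ = star (V : Matrix π.ι π.ι ℂ) * ((π.ρ q : Matrix π.ι π.ι ℂ) * y) *
            (V : Matrix π.ι π.ι ℂ) := by rw [hVV', mul_one]; simp only [mul_assoc]
        _ = star (V : Matrix π.ι π.ι ℂ) * (y * (π.ρ q : Matrix π.ι π.ι ℂ)) *
            (V : Matrix π.ι π.ι ℂ) := by rw [hy]
        _ = star (V : Matrix π.ι π.ι ℂ) * y *
            ((V : Matrix π.ι π.ι ℂ) * star (V : Matrix π.ι π.ι ℂ)) *
            (π.ρ q : Matrix π.ι π.ι ℂ) * (V : Matrix π.ι π.ι ℂ) := by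
              rw [hVV', mul_one]; simp only [mul_assoc]
        _ = _ := by simp only [mul_assoc]
    have h3 := congrFun (congrFun h1 i) j
    rw [Matrix.mul_diagonal, Matrix.diagonal_mul] at h3
    simp only [Function.comp_apply, RCLike.ofReal_eq_complex_ofReal] at h3
    rw [sub_mul, sub_eq_zero, ← h3, mul_comm]
  -- not all eigenvalues are equal
  have hne : ∃ i0 j0, lam j0 ≠ lam i0 := by
    by_contra hcon
    push Not at hcon
    obtain ⟨i0⟩ := π.ne
    refine hns ⟨(lam i0 : ℂ), ?_⟩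
    have hD : (Matrix.diagonal (RCLike.ofReal ∘ lam) : Matrix π.ι π.ι ℂ) =
        (lam i0 : ℂ) • (1 : Matrix π.ι π.ι ℂ) := by
      rw [Matrix.smul_one_eq_diagonal]
      congr 1
      funext j
      simp [hcon i0 j]
    rw [hspec, hD, mul_smul_comm, smul_mul_assoc, mul_one, hVV']
  obtain ⟨i0, j0, hij⟩ := hne
  let p : π.ι → Prop := fun i => lam i = lam i0
  have hp1 : ∀ q i j, p i → ¬ p j → (ρ' q : Matrix π.ι π.ι ℂ) i j = 0 := by
    intro q i j hi hj
    have := hcomm q i j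
    rcases mul_eq_zero.1 this with h1 | h1
    · exfalso
      apply hj
      have h2 : lam i = lam j := by exact_mod_cast sub_eq_zero.1 h1
      show lam j = lam i0
      rw [← h2]
      exact hi
    · exact h1
  have hp2 : ∀ q i j, ¬ p i → ¬ ¬ p j → (ρ' q : Matrix π.ι π.ι ℂ) i j = 0 := by
    intro q i j hi hj
    have hj' : p j := not_not.1 hj
    have := hcomm q i j
    rcases mul_eq_zero.1 this with h1 | h1
    · exfalso
      apply hi
      have h2 : lam i = lam j := by exact_mod_cast sub_eq_zero.1 h1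
      show lam i = lam i0
      rw [h2]
      exact hj'
    · exact h1
  obtain ⟨σ, hσ, hσt⟩ := split ρ' hcont p hp1
  obtain ⟨τ, hτ, hτt⟩ := split ρ' hcont (fun i => ¬ p i) hp2
  have : Nonempty {i // p i} := ⟨⟨i0, rfl⟩⟩
  have : Nonempty {i // ¬ p i} := ⟨⟨j0, hij⟩⟩
  have hcard : Fintype.card π.ι = Fintype.card {i // p i} + Fintype.card {i // ¬ p i} := by
    have h1 := Fintype.card_subtype_compl p
    have h2 : Fintype.card {i // p i} ≤ Fintype.card π.ι := Fintype.card_subtype_le p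
    omega
  have hcard1 : 0 < Fintype.card {i // p i} := Fintype.card_pos
  have hcard2 : 0 < Fintype.card {i // ¬ p i} := Fintype.card_pos
  obtain ⟨S, hS, hS2⟩ : ∃ S : FRep Q, Fintype.card S.ι = Fintype.card {i // p i} ∧
      ∀ q, (Fintype.card S.ι : ℂ) * S.χ q = ∑ i : {i // p i}, (ρ' q : Matrix π.ι π.ι ℂ) i i :=
    ⟨{ ι := {i // p i}, ρ := σ, cont := hσ }, rfl, fun q => (card_mul_χ _ q).trans (hσt q)⟩
  obtain ⟨T, hT, hT2⟩ : ∃ S : FRep Q, Fintype.card S.ι = Fintype.card {i // ¬ p i} ∧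
      ∀ q, (Fintype.card S.ι : ℂ) * S.χ q = ∑ i : {i // ¬ p i}, (ρ' q : Matrix π.ι π.ι ℂ) i i :=
    ⟨{ ι := {i // ¬ p i}, ρ := τ, cont := hτ }, rfl, fun q => (card_mul_χ _ q).trans (hτt q)⟩
  refine ⟨S, T, by omega, by omega, fun q => ⟨?_, ?_⟩⟩
  · rw [hS2, hT2, card_mul_χ, ← htrace]
    exact (Fintype.sum_subtype_add_sum_subtype p fun i => (ρ' q : Matrix π.ι π.ι ℂ) i i).symm
  · rw [hS, hT]
    exact_mod_cast hcard

/-- A bound for a real-linear functional of the normalized character of some representation holds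
also for some irreducible representation. -/
lemma exists_irred {α : Type} (s : Finset α) (b : α → ℂ) (y : α → Q) (K : ℝ) (π : FRep Q)
    (h : (∑ a ∈ s, b a * π.χ (y a)).re ≤ K) :
    ∃ σ : FRep Q, σ.Irred ∧ (∑ a ∈ s, b a * σ.χ (y a)).re ≤ K := by
  induction hn : Fintype.card π.ι using Nat.strong_induction_on generalizing π with
  | _ n ih =>
    by_cases hirr : π.Irred
    · exact ⟨π, hirr, h⟩
    · obtain ⟨σ, τ, h1, h2, h3⟩ := exists_split π hirr
      have hsum : (Fintype.card π.ι : ℂ) * ∑ a ∈ s, b a * π.χ (y a) =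
          (Fintype.card σ.ι : ℂ) * ∑ a ∈ s, b a * σ.χ (y a) +
          (Fintype.card τ.ι : ℂ) * ∑ a ∈ s, b a * τ.χ (y a) := by
        rw [Finset.mul_sum, Finset.mul_sum, Finset.mul_sum, ← Finset.sum_add_distrib]
        refine Finset.sum_congr rfl fun a _ => ?_
        have := (h3 (y a)).1
        linear_combination (b a) * this
      have hre := congrArg Complex.re hsum
      have hcast : ∀ (n : ℕ) (z : ℂ), ((n : ℂ) * z).re = (n : ℝ) * z.re := by
        intro n z; simp
      rw [Complex.add_re, hcast, hcast, hcast] at hre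
      have hc := (h3 1).2
      have p0 := π.card_pos
      have p1 := σ.card_pos
      have p2 := τ.card_pos
      by_cases hs : (∑ a ∈ s, b a * σ.χ (y a)).re ≤ K
      · exact ih _ (hn ▸ h1) σ hs rfl
      · refine ih _ (hn ▸ h2) τ ?_ rfl
        push Not at hs
        by_contra hcon
        push Not at hcon
        have : (Fintype.card π.ι : ℝ) * (∑ a ∈ s, b a * π.χ (y a)).re >
            (Fintype.card π.ι : ℝ) * K := by
          rw [hre, hc]
          nlinarith
        nlinarith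

end FRep

end Helper51.MU
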