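import Pool.Agent.Helper51.MU.Product

/-!
# Main construction
-/

set_option linter.unusedSectionVars false

namespace Helper51.MU

open Filter Topology
open scoped Matrix.Norms.L2Operator

lemma Nonprincipal.eventually_ge {U : Ultrafilter ℕ} (h : Nonprincipal U) (N : ℕ) :
    ∀ᶠ n in (U : Filter ℕ), N ≤ n :=
  h.le_atTop (Filter.eventually_ge_atTop N)

section

variable {G : Type} [Group G] {U : Ultrafilter ℕ} (e : ℕ → G) (he : Function.Surjective e)
  {S : Finset G} {c : ℝ} {ι : ℕ → Type} [∀ n, Fintype (ι n)] [∀ n, DecidableEq (ι n)]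

/-- the first `m` elements of the enumeration -/
noncomputable def initSeg (m : ℕ) : Finset G := by
  classical exact (Finset.range m).image e

lemma mem_initSeg {m i : ℕ} (h : i < m) : e i ∈ initSeg e m := by
  classical
  unfold initSeg
  exact Finset.mem_image.2 ⟨i, Finset.mem_range.2 h, rfl⟩

include he

lemma eventually_mem {m : ℕ → ℕ} (hm : ∀ M, ∀ᶠ n in (U : Filter ℕ), M ≤ m n) (g : G) :
    ∀ᶠ n in (U : Filter ℕ), g ∈ initSeg e (m n) := by
  obtain ⟨i, rfl⟩ := he g
  filter_upwards [hm (i + 1)] with n hn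
  exact mem_initSeg e (by omega)

end

theorem main {G : Type} [Group G] [Countable G] {χ : G → ℂ} {S : Finset G} {c : ℝ} (hc : 0 < c)
    (hmodels : ∀ (E : Finset G) (ε : ℝ), 0 < ε → ∀ N : ℕ, ∃ n, N ≤ n ∧
      ∃ w : G → Matrix.unitaryGroup (Fin n) ℂ, Good χ S c E ε n w) :
    HasIrreducibleEmbeddings χ := by
  classical
  obtain ⟨e, he⟩ := exists_surjective_nat G
  have hgood : ∀ m : ℕ, ∃ n, m ≤ n ∧ ∃ w : G → Matrix.unitaryGroup (Fin n) ℂ,
      Good χ S c (initSeg e m) (1 / ((m : ℝ) + 1)) n w := fun m =>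
    hmodels _ _ (by positivity) m
  choose k hk w hw using hgood
  constructor
  · refine ⟨k, hk, fun U hU => ?_⟩
    have hm : ∀ M, ∀ᶠ n in (U : Filter ℕ), M ≤ n := hU.eventually_ge
    have hmul : ∀ g h, ∀ᶠ n in (U : Filter ℕ), w n (g * h) = w n g * w n h := by
      intro g h
      filter_upwards [eventually_mem e he hm g, eventually_mem e he hm h] with n h1 h2
      exact (hw n).mul g h1 h h2
    have hlim : Tendsto (fun n : ℕ => 1 / ((n : ℝ) + 1)) U (𝓝 0) :=
      tendsto_one_div_add_atTop_nhds_zero_nat.mono_left hU.le_atTop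
    have htr : ∀ g, Tendsto (fun n => ntr (w n g : Matrix (Fin (k n)) (Fin (k n)) ℂ))
        U (𝓝 (χ g)) := by
      intro g
      rw [tendsto_iff_norm_sub_tendsto_zero]
      refine squeeze_zero' (Filter.Eventually.of_forall fun n => norm_nonneg _) ?_ hlim
      filter_upwards [eventually_mem e he hm g] with n h1
      exact (hw n).close g h1
    have hg' : ∀ᶠ n in (U : Filter ℕ), ∀ y : Matrix (Fin (k n)) (Fin (k n)) ℂ,
        c * hs (y - ntr y • (1 : Matrix (Fin (k n)) (Fin (k n)) ℂ)) ≤
        ∑ s ∈ S, hs ((w n s : Matrix (Fin (k n)) (Fin (k n)) ℂ) * y -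
          y * (w n s : Matrix (Fin (k n)) (Fin (k n)) ℂ)) :=
      Filter.Eventually.of_forall fun n => (hw n).gap
    refine ⟨irredHom_of_models w hmul htr hc hg', ?_⟩
    intro K _ ψ l hK
    refine irredHom_prod w ?_ hmul htr hc hg' hK
    filter_upwards [hm 1] with n hn
    exact ⟨⟨0, by have := hk n; omega⟩⟩
  · refine ⟨Set.range k, ?_, ?_⟩
    · refine Set.infinite_of_not_bddAbove ?_
      rintro ⟨B, hB⟩
      have h1 : k (B + 1) ≤ B := hB ⟨B + 1, rfl⟩
      have := hk (B + 1)
      omega
    · intro U hU hD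
      have hex : ∀ n : ℕ, ∃ (m : ℕ) (v : G → Matrix.unitaryGroup (Fin n) ℂ),
          n ∈ Set.range k → (Good χ S c (initSeg e m) (1 / ((m : ℝ) + 1)) n v ∧ k m = n) := by
        intro n
        by_cases hn : n ∈ Set.range k
        · obtain ⟨m, rfl⟩ := hn
          exact ⟨m, w m, fun _ => ⟨hw m, rfl⟩⟩
        · exact ⟨0, fun _ => 1, fun h => absurd h hn⟩
      choose m v hv using hex
      have hD' : ∀ᶠ n in (U : Filter ℕ), n ∈ Set.range k := hD
      have hm : ∀ M, ∀ᶠ n in (U : Filter ℕ), M ≤ m n := by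
        intro M
        have h1 : ∀ᶠ n in (U : Filter ℕ), n ∈ (k '' (Set.Iio M))ᶜ :=
          hU _ ((Set.finite_Iio M).image k)
        filter_upwards [h1, hD'] with n h2 h3
        by_contra hcon
        push Not at hcon
        exact h2 ⟨m n, hcon, (hv n h3).2⟩
      have hmul : ∀ g h, ∀ᶠ n in (U : Filter ℕ), v n (g * h) = v n g * v n h := by
        intro g h
        filter_upwards [eventually_mem e he hm g, eventually_mem e he hm h, hD'] with n h1 h2 h3
        exact (hv n h3).1.mul g h1 h h2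
      have hmt : Tendsto m U atTop := Filter.tendsto_atTop.2 hm
      have hlim : Tendsto (fun n : ℕ => 1 / ((m n : ℝ) + 1)) U (𝓝 0) :=
        tendsto_one_div_add_atTop_nhds_zero_nat.comp hmt
      have htr : ∀ g, Tendsto (fun n => ntr (v n g : Matrix (Fin n) (Fin n) ℂ))
          U (𝓝 (χ g)) := by
        intro g
        rw [tendsto_iff_norm_sub_tendsto_zero]
        refine squeeze_zero' (Filter.Eventually.of_forall fun n => norm_nonneg _) ?_ hlim
        filter_upwards [eventually_mem e he hm g, hD'] with n h1 h3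
        exact (hv n h3).1.close g h1
      refine irredHom_of_models v hmul htr hc (S := S) ?_
      filter_upwards [hD'] with n h3
      exact (hv n h3).1.gap

/-- Infinite conjugacy class groups. -/
theorem main_icc {G : Type} [Group G] [Countable G] [Nontrivial G]
    (hicc : ∀ g : G, g ≠ 1 → (conjugatesOf g).Infinite)
    (Q : ℕ → Type) [∀ j, Group (Q j)] [∀ j, TopologicalSpace (Q j)] (φ : ∀ j, G → Q j)
    (H : AMul φ) (Hs : Separating φ) (S : Finset G) (c : ℝ) (hc : 0 < c)
    (hgap : ∀ j, Gap S c (Q j) (φ j)) : HasIrreducibleEmbeddings (delta : G → ℂ) := by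
  have hinf : Infinite G := by
    obtain ⟨g, hg⟩ := exists_ne (1 : G)
    exact Set.infinite_univ_iff.1 ((hicc g hg).mono (Set.subset_univ _))
  exact main hc fun E ε hε N => exists_good H _ (irrClose_delta H Hs hicc) infiniteDim_delta hgap E
    hε N

/-- Extremal characters. -/
theorem main_char {G : Type} [Group G] [Countable G] (χ : G → ℂ) (hχ : IsExtremalChar χ)
    (hinf : InfiniteDim χ)
    (Q : ℕ → Type) [∀ j, Group (Q j)] [∀ j, TopologicalSpace (Q j)] (φ : ∀ j, G → Q j)
    (H : AMul φ) (π : ∀ j, FRep (Q j))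
    (hπ : ∀ g, Tendsto (fun j => (π j).χ (φ j g)) atTop (𝓝 (χ g)))
    (S : Finset G) (c : ℝ) (hc : 0 < c)
    (hgap : ∀ j, Gap S c (Q j) (φ j)) : HasIrreducibleEmbeddings χ :=
  main hc fun E ε hε N => exists_good H _
    (fun E ε hε => exists_irred_close φ H χ hχ π hπ E hε) hinf hgap E hε N

/-! ### Kazhdan groups -/

/-- Kazhdan's property (T) for a discrete group `G`: there are a finite subset `S` and `c > 0`
such that in every unitary representation `π` of `G` on a complex Hilbert space and for every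
vector `v` orthogonal to the invariant vectors, `c ‖v‖² ≤ ∑_{s ∈ S} ‖π(s) v - v‖²`. -/
def PropertyT (G : Type) [Group G] : Prop :=
  ∃ (S : Finset G) (c : ℝ), 0 < c ∧
    ∀ (H : Type) [NormedAddCommGroup H] [InnerProductSpace ℂ H] [CompleteSpace H]
      (π : G →* unitary (H →L[ℂ] H)) (v : H),
      (∀ w : H, (∀ g, (π g : H →L[ℂ] H) w = w) → inner ℂ w v = 0) →
      c * ‖v‖ ^ 2 ≤ ∑ s ∈ S, ‖(π s : H →L[ℂ] H) v - v‖ ^ 2

/-- Residual finiteness: every nontrivial element survives in a finite quotient. -/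
def ResiduallyFinite (G : Type) [Group G] : Prop :=
  ∀ g : G, g ≠ 1 → ∃ (F : Type) (_ : Group F) (_ : Finite F) (f : G →* F), f g ≠ 1

/-- The left regular representation of a finite group by permutation matrices. -/
noncomputable def regRep (F : Type) [Group F] [Fintype F] [DecidableEq F] :
    F →* Matrix.unitaryGroup F ℂ where
  toFun x := ⟨Matrix.of fun i j => if i = x * j then 1 else 0, by
    rw [Matrix.mem_unitaryGroup_iff]
    ext i j
    rw [Matrix.mul_apply, Finset.sum_eq_single (x⁻¹ * i)]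
    · simp [Matrix.star_apply, Matrix.one_apply, eq_comm]
    · intro k _ hk
      have : ¬ i = x * k := fun h => hk (by rw [h]; group)
      simp [this]
    · simp⟩
  map_one' := by
    apply Subtype.ext
    ext i j
    simp [Matrix.one_apply]
  map_mul' x y := by
    apply Subtype.ext
    ext i j
    show (if i = x * y * j then (1 : ℂ) else 0) = ((Matrix.of fun i j => if i = x * j then (1 : ℂ)
      else 0) * (Matrix.of fun i j => if i = y * j then (1 : ℂ) else 0) : Matrix F F ℂ) i j
    rw [Matrix.mul_apply, Finset.sum_eq_single (y * j)]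
    · simp [mul_assoc]
    · intro k _ hk
      simp [hk]
    · simp

lemma regRep_ne_one {F : Type} [Group F] [Fintype F] [DecidableEq F] {x : F} (hx : x ≠ 1) :
    regRep F x ≠ 1 := by
  intro h
  have h1 := congrArg (fun u : Matrix.unitaryGroup F ℂ => (u : Matrix F F ℂ) x 1) h
  simp only [regRep, MonoidHom.coe_mk, OneHom.coe_mk, Matrix.of_apply, mul_one] at h1
  simp [hx] at h1

/-- A unitary matrix as a unitary operator on Euclidean space. -/
noncomputable def toOp {ι : Type} [Fintype ι] [DecidableEq ι] :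
    Matrix.unitaryGroup ι ℂ →* unitary (EuclideanSpace ℂ ι →L[ℂ] EuclideanSpace ℂ ι) where
  toFun u := ⟨Matrix.toEuclideanCLM (n := ι) (𝕜 := ℂ) (u : Matrix ι ι ℂ), by
    rw [Unitary.mem_iff, ← map_star, ← map_mul, ← map_mul, Matrix.mem_unitaryGroup_iff.1 u.2,
      Matrix.mem_unitaryGroup_iff'.1 u.2, map_one]
    exact ⟨rfl, rfl⟩⟩
  map_one' := Subtype.ext (map_one _)
  map_mul' u v := Subtype.ext (map_mul _ _ _)

lemma toOp_apply {ι : Type} [Fintype ι] [DecidableEq ι] (u : Matrix.unitaryGroup ι ℂ)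
    (v : ι → ℂ) : (toOp u : EuclideanSpace ℂ ι →L[ℂ] EuclideanSpace ℂ ι) (WithLp.toLp 2 v) =
      WithLp.toLp 2 ((u : Matrix ι ι ℂ).mulVec v) := rfl

lemma gap_of_propertyT {G : Type} [Group G] [TopologicalSpace G] {S : Finset G} {c : ℝ}
    (h : ∀ (H : Type) [NormedAddCommGroup H] [InnerProductSpace ℂ H] [CompleteSpace H]
      (π : G →* unitary (H →L[ℂ] H)) (v : H),
      (∀ w : H, (∀ g, (π g : H →L[ℂ] H) w = w) → inner ℂ w v = 0) →
      c * ‖v‖ ^ 2 ≤ ∑ s ∈ S, ‖(π s : H →L[ℂ] H) v - v‖ ^ 2) : Gap S c G id := by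
  intro ι _ _ ρ _ v hv
  have h1 := h (EuclideanSpace ℂ ι) (toOp.comp ρ) (WithLp.toLp 2 v) (by
    intro w hw
    have h2 := hv (WithLp.ofLp w) (by
      intro g
      have h3 := hw g
      have h4 := congrArg WithLp.ofLp h3
      exact h4)
    rw [← h2, PiLp.inner_apply]
    refine Finset.sum_congr rfl fun i _ => ?_
    simp [mul_comm])
  rw [EuclideanSpace.norm_sq_eq] at h1
  refine h1.trans (le_of_eq ?_)
  refine Finset.sum_congr rfl fun s _ => ?_
  rw [EuclideanSpace.norm_sq_eq]
  rfl

/-- Extremal characters of Kazhdan groups that are limits of characters of finite-dimensional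
unitary representations. -/
theorem kazhdan_char {G : Type} [Group G] [Countable G] (hT : PropertyT G)
    (χ : G → ℂ) (hχ : IsExtremalChar χ) (hinf : InfiniteDim χ)
    (d : ℕ → ℕ) (π : ∀ j, G →* Matrix.unitaryGroup (Fin (d j + 1)) ℂ)
    (hπ : ∀ g, Tendsto (fun j => ntr (π j g : Matrix (Fin (d j + 1)) (Fin (d j + 1)) ℂ)) atTop
      (𝓝 (χ g))) : HasIrreducibleEmbeddings χ := by
  obtain ⟨S, c, hc, h⟩ := hT
  letI : TopologicalSpace G := ⊥
  have : DiscreteTopology G := ⟨rfl⟩
  exact main_char χ hχ hinf (fun _ => G) (fun _ => id)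
    (fun g h => Filter.Eventually.of_forall fun _ => rfl)
    (fun j => { ι := Fin (d j + 1), ρ := π j, cont := continuous_of_discreteTopology }) hπ S c hc
    fun _ => gap_of_propertyT h

/-- Residually finite Kazhdan groups with infinite conjugacy classes. -/
theorem kazhdan {G : Type} [Group G] [Countable G] [Nontrivial G]
    (hicc : ∀ g : G, g ≠ 1 → (conjugatesOf g).Infinite) (hRF : ResiduallyFinite G)
    (hT : PropertyT G) : HasIrreducibleEmbeddings (delta : G → ℂ) := by
  classical
  obtain ⟨S, c, hc, h⟩ := hT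
  letI : TopologicalSpace G := ⊥
  have : DiscreteTopology G := ⟨rfl⟩
  refine main_icc hicc (fun _ => G) (fun _ => id) ?_ ?_ S c hc fun _ => gap_of_propertyT h
  · intro g h
    exact Filter.Eventually.of_forall fun _ => rfl
  · intro g hg
    obtain ⟨F, _, _, f, hf⟩ := hRF g hg
    have := Fintype.ofFinite F
    refine Filter.Eventually.of_forall fun _ => ⟨F, inferInstance, inferInstance,
      (regRep F).comp f, continuous_of_discreteTopology, ?_⟩
    exact regRep_ne_one hf

end Helper51.MU
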