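import Pool.Agent.Helper51.MU.Gap

/-!
# Irreducible representations with small characters
-/

set_option linter.unusedSectionVars false

namespace Helper51.MU

open Filter Topology
open scoped Matrix.Norms.L2Operator

lemma ntr_star_mul_self {ι : Type} [Fintype ι] [DecidableEq ι] (A : Matrix ι ι ℂ) :
    ntr (star A * A) = (nn A : ℂ) := by
  unfold ntr nn hs
  push_cast
  congr 1
  rw [Finset.sum_comm]
  refine Finset.sum_congr rfl fun i _ => ?_
  rw [Matrix.mul_apply]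
  refine Finset.sum_congr rfl fun k _ => ?_
  rw [Matrix.star_apply, ← Complex.conj_mul']
  rfl

namespace FRep

variable {Q : Type} [Group Q] [TopologicalSpace Q]

lemma χ_conj (π : FRep Q) (a q : Q) : π.χ (a * q * a⁻¹) = π.χ q := by
  unfold χ ntr
  congr 1
  have h : Matrix.trace (π.ρ (a * q * a⁻¹) : Matrix π.ι π.ι ℂ) =
      Matrix.trace (π.ρ q : Matrix π.ι π.ι ℂ) := by
    rw [map_mul, map_mul, map_inv]
    show Matrix.trace ((π.ρ a : Matrix π.ι π.ι ℂ) * (π.ρ q : Matrix π.ι π.ι ℂ) *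
      star (π.ρ a : Matrix π.ι π.ι ℂ)) = _
    rw [Matrix.trace_mul_comm, ← mul_assoc, Matrix.mem_unitaryGroup_iff'.1 (π.ρ a).2, one_mul]
  exact h

lemma χ_one (π : FRep Q) : π.χ 1 = 1 := by
  unfold χ
  rw [map_one]
  exact ntr_one

lemma ntr_sum {ι : Type} [Fintype ι] [DecidableEq ι] {α : Type} (s : Finset α)
    (f : α → Matrix ι ι ℂ) : ntr (∑ a ∈ s, f a) = ∑ a ∈ s, ntr (f a) := by
  classical
  induction s using Finset.induction_on with
  | empty => simp [ntr]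
  | insert a s ha ih => rw [Finset.sum_insert ha, ntr_add, ih, Finset.sum_insert ha]

lemma sum_sum_χ (π : FRep Q) (w : ℕ → Q) (m : ℕ) :
    ∑ i ∈ Finset.range m, ∑ k ∈ Finset.range m, π.χ ((w i)⁻¹ * w k) =
      (nn (∑ i ∈ Finset.range m, (π.ρ (w i) : Matrix π.ι π.ι ℂ)) : ℂ) := by
  rw [← ntr_star_mul_self, star_sum, Finset.sum_mul, ntr_sum]
  refine Finset.sum_congr rfl fun i _ => ?_
  rw [Finset.mul_sum, ntr_sum]
  refine Finset.sum_congr rfl fun k _ => ?_
  unfold χ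
  rw [map_mul, map_inv]
  rfl

/-- Key estimate: the character at `q` is controlled by averages over conjugates. -/
lemma norm_χ_sq_le (π : FRep Q) (q : Q) (w : ℕ → Q) (m : ℕ)
    (h : ∀ i < m, ∃ a, w i = a * q * a⁻¹) :
    (m : ℝ) ^ 2 * ‖π.χ q‖ ^ 2 ≤
      (∑ i ∈ Finset.range m, ∑ k ∈ Finset.range m, π.χ ((w i)⁻¹ * w k)).re := by
  rw [sum_sum_χ, Complex.ofReal_re]
  refine le_trans (le_of_eq ?_) (norm_ntr_sq_le _)
  rw [ntr_sum]
  have : ∑ i ∈ Finset.range m, ntr (π.ρ (w i) : Matrix π.ι π.ι ℂ) =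
      ∑ _i ∈ Finset.range m, π.χ q := by
    refine Finset.sum_congr rfl fun i hi => ?_
    obtain ⟨a, ha⟩ := h i (Finset.mem_range.1 hi)
    rw [ha]
    exact π.χ_conj a q
  rw [this]
  simp [mul_pow]

lemma re_sum_nonneg (π : FRep Q) (w : ℕ → Q) (m : ℕ) :
    0 ≤ (∑ i ∈ Finset.range m, ∑ k ∈ Finset.range m, π.χ ((w i)⁻¹ * w k)).re := by
  rw [sum_sum_χ, Complex.ofReal_re]
  exact nn_nonneg _

end FRep

variable {G : Type} [Group G]

lemma exists_conj_seq (g : G) (h : (conjugatesOf g).Infinite) :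
    ∃ a : ℕ → G, Function.Injective fun i => a i * g * (a i)⁻¹ := by
  have h1 : ∀ i : ℕ, ∃ c : G, c * g * c⁻¹ = (h.natEmbedding _ i : G) := by
    intro i
    have h2 : IsConj g (h.natEmbedding _ i : G) := (h.natEmbedding _ i).2
    exact isConj_iff.1 h2
  choose a ha using h1
  refine ⟨a, fun i k hik => ?_⟩
  simp only [ha] at hik
  exact (h.natEmbedding _).injective (Subtype.ext hik)

namespace AMul

variable {Q : ℕ → Type} [∀ j, Group (Q j)] {φ : ∀ j, G → Q j}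

lemma one (H : AMul φ) : ∀ᶠ j in atTop, φ j 1 = 1 := by
  filter_upwards [H 1 1] with j hj
  rw [mul_one] at hj
  exact (mul_eq_left.1 hj.symm)

lemma inv (H : AMul φ) (g : G) : ∀ᶠ j in atTop, φ j g⁻¹ = (φ j g)⁻¹ := by
  filter_upwards [H g g⁻¹, H.one] with j h1 h2
  rw [mul_inv_cancel, h2] at h1
  exact eq_inv_of_mul_eq_one_right h1.symm

lemma conj (H : AMul φ) (a g : G) :
    ∀ᶠ j in atTop, φ j (a * g * a⁻¹) = φ j a * φ j g * (φ j a)⁻¹ := by
  filter_upwards [H (a * g) a⁻¹, H a g, H.inv a] with j h1 h2 h3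
  rw [h1, h2, h3]

end AMul

section sep

variable {Q : ℕ → Type} [∀ j, Group (Q j)] [∀ j, TopologicalSpace (Q j)] {φ : ∀ j, G → Q j}

lemma Separating.small (Hs : Separating φ) (g : G) (hg : g ≠ 1) :
    ∀ᶠ j in atTop, ∃ σ : FRep (Q j), ‖σ.χ (φ j g)‖ < 1 := by
  filter_upwards [Hs g hg] with j hj
  obtain ⟨ι, _, _, ρ, hc, hne⟩ := hj
  exact FRep.exists_small ι ρ hc _ hne

lemma exists_irred_small (H : AMul φ) (Hs : Separating φ)
    (hicc : ∀ g : G, g ≠ 1 → (conjugatesOf g).Infinite) (E : Finset G) (hE : (1 : G) ∉ E)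
    {ε : ℝ} (hε : 0 < ε) :
    ∀ᶠ j in atTop, ∃ π : FRep (Q j), π.Irred ∧ ∀ g ∈ E, ‖π.χ (φ j g)‖ ≤ ε := by
  classical
  have hne : ∀ g ∈ E, g ≠ 1 := fun g hg h => hE (h ▸ hg)
  have h1 : ∀ g : G, ∃ a : ℕ → G, g ∈ E → Function.Injective fun i => a i * g * (a i)⁻¹ := by
    intro g
    by_cases hg : g ∈ E
    · obtain ⟨a, ha⟩ := exists_conj_seq g (hicc g (hne g hg))
      exact ⟨a, fun _ => ha⟩
    · exact ⟨fun _ => 1, fun h => absurd h hg⟩
  choose a ha using h1
  obtain ⟨m, hm⟩ : ∃ m : ℕ, 0 < m ∧ 2 * (E.card : ℝ) / m ≤ ε ^ 2 := by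
    obtain ⟨m, hm⟩ := exists_nat_gt (2 * (E.card : ℝ) / ε ^ 2)
    have hm0 : (0 : ℝ) < m := lt_of_le_of_lt (by positivity) hm
    refine ⟨m, by exact_mod_cast hm0, ?_⟩
    rw [div_lt_iff₀ (by positivity)] at hm
    rw [div_le_iff₀ hm0]
    linarith
  obtain ⟨hm0, hmε⟩ := hm
  have hmR : (0 : ℝ) < m := by exact_mod_cast hm0
  -- the conjugates
  let x : G → ℕ → G := fun g i => a g i * g * (a g i)⁻¹
  have ev1 : ∀ᶠ j in atTop, ∀ g ∈ E, ∀ i ∈ Finset.range m,
      φ j (x g i) = φ j (a g i) * φ j g * (φ j (a g i))⁻¹ := by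
    rw [Filter.eventually_all_finset]
    intro g _
    rw [Filter.eventually_all_finset]
    intro i _
    exact H.conj _ _
  have ev2 : ∀ᶠ j in atTop, ∀ g ∈ E, ∀ i ∈ Finset.range m, ∀ k ∈ Finset.range m,
      φ j ((x g i)⁻¹ * x g k) = (φ j (x g i))⁻¹ * φ j (x g k) := by
    rw [Filter.eventually_all_finset]
    intro g _
    rw [Filter.eventually_all_finset]
    intro i _
    rw [Filter.eventually_all_finset]
    intro k _
    filter_upwards [H (x g i)⁻¹ (x g k), H.inv (x g i)] with j h1 h2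
    rw [h1, h2]
  have ev3 : ∀ᶠ j in atTop, ∀ g ∈ E, ∀ i ∈ Finset.range m, ∀ k ∈ Finset.range m, i ≠ k →
      ∃ σ : FRep (Q j), ‖σ.χ (φ j ((x g i)⁻¹ * x g k))‖ < 1 := by
    rw [Filter.eventually_all_finset]
    intro g hg
    rw [Filter.eventually_all_finset]
    intro i _
    rw [Filter.eventually_all_finset]
    intro k _
    by_cases hik : i = k
    · exact Filter.Eventually.of_forall fun j h => absurd hik h
    · refine (Hs.small ((x g i)⁻¹ * x g k) ?_).mono fun j hj _ => hj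
      intro h0
      exact hik (ha g hg (inv_mul_eq_one.1 h0))
  filter_upwards [ev1, ev2, ev3] with j h1 h2 h3
  -- a representation with small characters at the differences
  let T : Finset (Q j) := ((E ×ˢ Finset.range m ×ˢ Finset.range m).filter
    (fun p => p.2.1 ≠ p.2.2)).image fun p => (φ j (x p.1 p.2.1))⁻¹ * φ j (x p.1 p.2.2)
  have hT : ∀ q ∈ T, ∃ σ : FRep (Q j), ‖σ.χ q‖ < 1 := by
    intro q hq
    obtain ⟨p, hp, rfl⟩ := Finset.mem_image.1 hq
    rw [Finset.mem_filter, Finset.mem_product, Finset.mem_product] at hp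
    rw [← h2 p.1 hp.1.1 p.2.1 hp.1.2.1 p.2.2 hp.1.2.2]
    exact h3 p.1 hp.1.1 p.2.1 hp.1.2.1 p.2.2 hp.1.2.2 hp.2
  obtain ⟨π, hπ⟩ := FRep.exists_tiny T hT (ε := 1 / m) (by positivity)
  -- linear functional
  have hF : ∀ σ : FRep (Q j),
      (∑ p ∈ E ×ˢ Finset.range m ×ˢ Finset.range m, (1 : ℂ) *
        σ.χ ((φ j (x p.1 p.2.1))⁻¹ * φ j (x p.1 p.2.2))).re =
      ∑ g ∈ E, (∑ i ∈ Finset.range m, ∑ k ∈ Finset.range m,
        σ.χ ((φ j (x g i))⁻¹ * φ j (x g k))).re := by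
    intro σ
    rw [Finset.sum_product, Complex.re_sum]
    refine Finset.sum_congr rfl fun g _ => ?_
    rw [Finset.sum_product]
    simp only [one_mul]
  have hbound : (∑ p ∈ E ×ˢ Finset.range m ×ˢ Finset.range m, (1 : ℂ) *
        π.χ ((φ j (x p.1 p.2.1))⁻¹ * φ j (x p.1 p.2.2))).re ≤ 2 * E.card * m := by
    rw [hF]
    have h4 : ∀ g ∈ E, (∑ i ∈ Finset.range m, ∑ k ∈ Finset.range m,
        π.χ ((φ j (x g i))⁻¹ * φ j (x g k))).re ≤ 2 * m := by
      intro g hg
      rw [Complex.re_sum]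
      have h5 : ∀ i ∈ Finset.range m, (∑ k ∈ Finset.range m,
          π.χ ((φ j (x g i))⁻¹ * φ j (x g k))).re ≤ 2 := by
        intro i hi
        rw [Complex.re_sum]
        have h6 : ∀ k ∈ Finset.range m, (π.χ ((φ j (x g i))⁻¹ * φ j (x g k))).re ≤
            (if i = k then 1 else 0) + 1 / (m : ℝ) := by
          intro k hk
          by_cases hik : i = k
          · subst hik
            rw [inv_mul_cancel, π.χ_one]
            simp
          · rw [if_neg hik, zero_add]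
            refine (Complex.re_le_norm _).trans (hπ _ ?_)
            refine Finset.mem_image.2 ⟨(g, i, k), ?_, rfl⟩
            rw [Finset.mem_filter, Finset.mem_product, Finset.mem_product]
            exact ⟨⟨hg, hi, hk⟩, hik⟩
        refine (Finset.sum_le_sum h6).trans ?_
        rw [Finset.sum_add_distrib, Finset.sum_ite_eq, if_pos hi, Finset.sum_const,
          Finset.card_range, nsmul_eq_mul, mul_one_div, div_self hmR.ne']
        norm_num
      refine (Finset.sum_le_sum h5).trans ?_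
      rw [Finset.sum_const, Finset.card_range, nsmul_eq_mul]
      linarith
    refine (Finset.sum_le_sum h4).trans ?_
    rw [Finset.sum_const, nsmul_eq_mul]
    linarith
  obtain ⟨σ, hσ, hσb⟩ := FRep.exists_irred _ _ _ _ π hbound
  refine ⟨σ, hσ, fun g hg => ?_⟩
  rw [hF] at hσb
  have h7 : (∑ i ∈ Finset.range m, ∑ k ∈ Finset.range m,
      σ.χ ((φ j (x g i))⁻¹ * φ j (x g k))).re ≤ 2 * E.card * m :=
    (Finset.single_le_sum (f := fun g => (∑ i ∈ Finset.range m, ∑ k ∈ Finset.range m,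
      σ.χ ((φ j (x g i))⁻¹ * φ j (x g k))).re)
      (fun g _ => σ.re_sum_nonneg (fun i => φ j (x g i)) m) hg).trans hσb
  have h8 := σ.norm_χ_sq_le (φ j g) (fun i => φ j (x g i)) m
    (fun i hi => ⟨φ j (a g i), h1 g hg i (Finset.mem_range.2 hi)⟩)
  have h9 : (m : ℝ) ^ 2 * ‖σ.χ (φ j g)‖ ^ 2 ≤ 2 * E.card * m := h8.trans h7
  have h10 : ‖σ.χ (φ j g)‖ ^ 2 ≤ 2 * E.card / m := by
    rw [le_div_iff₀ hmR]
    nlinarith
  have h11 := h10.trans hmε
  exact (sq_le_sq₀ (norm_nonneg _) hε.le).1 h11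

end sep

end Helper51.MU
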