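import Pool.Agent.Helper51.MU.Basic

namespace Helper51.MU

open Filter Topology
open scoped Matrix.Norms.L2Operator

variable {ι : Type} [Fintype ι]

lemma hs_nonneg (x : Matrix ι ι ℂ) : 0 ≤ hs x :=
  Finset.sum_nonneg fun _ _ => Finset.sum_nonneg fun _ _ => by positivity

lemma nn_nonneg (x : Matrix ι ι ℂ) : 0 ≤ nn x := div_nonneg (hs_nonneg x) (by positivity)

lemma hs_zero : hs (0 : Matrix ι ι ℂ) = 0 := by simp [hs]

lemma hs_neg (x : Matrix ι ι ℂ) : hs (-x) = hs x := by simp [hs]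

lemma hs_sub_comm (x y : Matrix ι ι ℂ) : hs (x - y) = hs (y - x) := by
  rw [← hs_neg, neg_sub]

lemma hs_smul (c : ℂ) (x : Matrix ι ι ℂ) : hs (c • x) = ‖c‖ ^ 2 * hs x := by
  simp [hs, mul_pow, Finset.mul_sum]

lemma hs_add_le (x y : Matrix ι ι ℂ) : hs (x + y) ≤ 2 * hs x + 2 * hs y := by
  have h : ∀ a b : ℂ, ‖a + b‖ ^ 2 ≤ 2 * ‖a‖ ^ 2 + 2 * ‖b‖ ^ 2 := by
    intro a b
    have := norm_add_le a b
    nlinarith [norm_nonneg (a + b), norm_nonneg a, norm_nonneg b, sq_nonneg (‖a‖ - ‖b‖)]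
  simp only [hs, Finset.mul_sum, ← Finset.sum_add_distrib]
  exact Finset.sum_le_sum fun i _ => Finset.sum_le_sum fun j _ => by simpa using h _ _

lemma hs_conjTranspose (x : Matrix ι ι ℂ) : hs x.conjTranspose = hs x := by
  simp only [hs, Matrix.conjTranspose_apply, norm_star]
  exact Finset.sum_comm

lemma nn_add_le (x y : Matrix ι ι ℂ) : nn (x + y) ≤ 2 * nn x + 2 * nn y := by
  unfold nn
  rw [← mul_div_assoc, ← mul_div_assoc, ← add_div]
  exact div_le_div_of_nonneg_right (hs_add_le x y) (by positivity)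

lemma nn_conjTranspose (x : Matrix ι ι ℂ) : nn x.conjTranspose = nn x := by
  simp [nn, hs_conjTranspose]

lemma nn_smul (c : ℂ) (x : Matrix ι ι ℂ) : nn (c • x) = ‖c‖ ^ 2 * nn x := by
  simp [nn, hs_smul, mul_div_assoc]

lemma nn_neg (x : Matrix ι ι ℂ) : nn (-x) = nn x := by simp [nn, hs_neg]

lemma ntr_add (x y : Matrix ι ι ℂ) : ntr (x + y) = ntr x + ntr y := by
  simp [ntr, Finset.sum_add_distrib, add_div]

lemma ntr_sub (x y : Matrix ι ι ℂ) : ntr (x - y) = ntr x - ntr y := by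
  simp [ntr, Finset.sum_sub_distrib, sub_div]

lemma ntr_smul (c : ℂ) (x : Matrix ι ι ℂ) : ntr (c • x) = c * ntr x := by
  simp [ntr, ← Finset.mul_sum, mul_div_assoc]

lemma norm_ntr_sq_le (x : Matrix ι ι ℂ) : ‖ntr x‖ ^ 2 ≤ nn x := by
  unfold ntr nn hs
  rcases Nat.eq_zero_or_pos (Fintype.card ι) with h | h
  · simp [h]
  have hc : (0 : ℝ) < Fintype.card ι := by exact_mod_cast h
  rw [norm_div, Complex.norm_natCast, div_pow, div_le_div_iff₀ (by positivity) hc]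
  have h1 : ‖∑ i, x i i‖ ≤ ∑ i, ‖x i i‖ := norm_sum_le _ _
  have h2 : (∑ i, ‖x i i‖) ^ 2 ≤ Fintype.card ι * ∑ i, ‖x i i‖ ^ 2 := by
    have := sq_sum_le_card_mul_sum_sq (s := (Finset.univ : Finset ι)) (f := fun i => ‖x i i‖)
    simpa [Finset.card_univ] using this
  have h3 : ∑ i, ‖x i i‖ ^ 2 ≤ ∑ i, ∑ j, ‖x i j‖ ^ 2 :=
    Finset.sum_le_sum fun i _ =>
      Finset.single_le_sum (f := fun j => ‖x i j‖ ^ 2) (fun j _ => by positivity)
        (Finset.mem_univ i)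
  have h4 : ‖∑ i, x i i‖ ^ 2 ≤ Fintype.card ι * ∑ i, ∑ j, ‖x i j‖ ^ 2 := by
    calc ‖∑ i, x i i‖ ^ 2 ≤ (∑ i, ‖x i i‖) ^ 2 := by gcongr
      _ ≤ Fintype.card ι * ∑ i, ‖x i i‖ ^ 2 := h2
      _ ≤ _ := by gcongr
  nlinarith [h4, hc]

variable [DecidableEq ι]

lemma ntr_one [Nonempty ι] : ntr (1 : Matrix ι ι ℂ) = 1 := by
  have h : (Fintype.card ι : ℂ) ≠ 0 := by exact_mod_cast Fintype.card_ne_zero
  simp [ntr, h]

lemma hs_mul_le_left (x y : Matrix ι ι ℂ) : hs (x * y) ≤ ‖x‖ ^ 2 * hs y := by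
  have key : ∀ j, ∑ i, ‖(x * y) i j‖ ^ 2 ≤ ‖x‖ ^ 2 * ∑ i, ‖y i j‖ ^ 2 := by
    intro j
    have h := Matrix.l2_opNorm_mulVec x (WithLp.toLp 2 (fun i => y i j))
    have h2 := mul_self_le_mul_self (norm_nonneg _) h
    have e1 : ‖(EuclideanSpace.equiv ι ℂ).symm (x.mulVec (WithLp.toLp 2 (fun i => y i j)))‖
        * ‖(EuclideanSpace.equiv ι ℂ).symm (x.mulVec (WithLp.toLp 2 (fun i => y i j)))‖
        = ∑ i, ‖(x * y) i j‖ ^ 2 := by
      rw [← sq, EuclideanSpace.norm_sq_eq]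
      rfl
    have e2 : ‖(WithLp.toLp 2 (fun i => y i j) : EuclideanSpace ℂ ι)‖
        * ‖(WithLp.toLp 2 (fun i => y i j) : EuclideanSpace ℂ ι)‖ = ∑ i, ‖y i j‖ ^ 2 := by
      rw [← sq, EuclideanSpace.norm_sq_eq]
    rw [e1] at h2
    calc _ ≤ _ := h2
      _ = ‖x‖ ^ 2 * (‖(WithLp.toLp 2 (fun i => y i j) : EuclideanSpace ℂ ι)‖
        * ‖(WithLp.toLp 2 (fun i => y i j) : EuclideanSpace ℂ ι)‖) := by ring
      _ = _ := by rw [e2]
  unfold hs
  rw [Finset.sum_comm, Finset.sum_comm (f := fun i j => ‖y i j‖ ^ 2), Finset.mul_sum]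
  exact Finset.sum_le_sum fun j _ => key j

lemma hs_mul_le_right (x y : Matrix ι ι ℂ) : hs (x * y) ≤ ‖y‖ ^ 2 * hs x := by
  rw [← hs_conjTranspose, Matrix.conjTranspose_mul, ← hs_conjTranspose x]
  have := hs_mul_le_left y.conjTranspose x.conjTranspose
  rwa [Matrix.l2_opNorm_conjTranspose] at this

lemma nn_mul_le_left (x y : Matrix ι ι ℂ) : nn (x * y) ≤ ‖x‖ ^ 2 * nn y := by
  unfold nn
  rw [← mul_div_assoc]
  exact div_le_div_of_nonneg_right (hs_mul_le_left x y) (by positivity)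

lemma nn_mul_le_right (x y : Matrix ι ι ℂ) : nn (x * y) ≤ ‖y‖ ^ 2 * nn x := by
  unfold nn
  rw [← mul_div_assoc]
  exact div_le_div_of_nonneg_right (hs_mul_le_right x y) (by positivity)

lemma nn_le_norm_sq (x : Matrix ι ι ℂ) : nn x ≤ ‖x‖ ^ 2 := by
  have h := nn_mul_le_left x 1
  rw [mul_one] at h
  have h1 : nn (1 : Matrix ι ι ℂ) ≤ 1 := by
    unfold nn hs
    have : ∑ i : ι, ∑ j : ι, ‖(1 : Matrix ι ι ℂ) i j‖ ^ 2 = Fintype.card ι := by
      have : ∀ i : ι, ∑ j : ι, ‖(1 : Matrix ι ι ℂ) i j‖ ^ 2 = 1 := by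
        intro i
        rw [Finset.sum_eq_single i]
        · simp
        · intro j _ hj
          simp [Matrix.one_apply_ne hj.symm]
        · simp
      simp [this]
    rw [this]
    exact div_self_le_one _
  nlinarith [sq_nonneg ‖x‖]


/-- Bounded sequences of complex numbers converge along an ultrafilter. -/
lemma exists_lim {U : Ultrafilter ℕ} {f : ℕ → ℂ} (h : ∃ C : ℝ, ∀ n, ‖f n‖ ≤ C) :
    ∃ a, Tendsto f U (𝓝 a) := by
  obtain ⟨C, hC⟩ := h
  have hK : IsCompact (Metric.closedBall (0 : ℂ) C) := isCompact_closedBall 0 C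
  have h1 : Tendsto f U (𝓟 (Metric.closedBall (0 : ℂ) C)) :=
    Filter.tendsto_principal.2 (Filter.Eventually.of_forall fun n => by simpa using hC n)
  obtain ⟨a, -, ha⟩ := hK.ultrafilter_le_nhds (U.map f) (by
    rw [Ultrafilter.coe_map]; exact h1)
  exact ⟨a, ha⟩

omit [DecidableEq ι] in
lemma tendsto_zero_of_nn {U : Ultrafilter ℕ} {κ : ℕ → Type} [∀ n, Fintype (κ n)]
    {x : ∀ n, Matrix (κ n) (κ n) ℂ}
    (h : Tendsto (fun n => nn (x n)) U (𝓝 0)) : Tendsto (fun n => ntr (x n)) U (𝓝 0) := by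
  have h1 : Tendsto (fun n => Real.sqrt (nn (x n))) U (𝓝 0) := by
    have := (Real.continuous_sqrt.tendsto 0).comp h
    rwa [Real.sqrt_zero] at this
  refine squeeze_zero_norm (fun n => ?_) h1
  exact Real.le_sqrt_of_sq_le (norm_ntr_sq_le (x n))

end Helper51.MU
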