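import Pool.Agent.Helper51.MU.Assembly

/-!
# Products
-/

set_option linter.unusedSectionVars false

namespace Helper51.MU

open Filter Topology
open scoped Matrix.Norms.L2Operator

section single

variable {ι κ : Type} [Fintype ι] [DecidableEq ι] [Fintype κ] [DecidableEq κ]

/-- `x ↦ 1 ⊗ x`. -/
noncomputable def inr (ι : Type) {κ : Type} [Fintype ι] [DecidableEq ι] [Fintype κ]
    [DecidableEq κ] : Matrix κ κ ℂ →⋆ₐ[ℂ] Matrix (ι × κ) (ι × κ) ℂ where
  toFun x := Matrix.kroneckerMap (· * ·) (1 : Matrix ι ι ℂ) x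
  map_one' := Matrix.one_kronecker_one
  map_mul' x y := by
    have := Matrix.mul_kronecker_mul (1 : Matrix ι ι ℂ) (1 : Matrix ι ι ℂ) x y
    rwa [one_mul] at this
  map_zero' := by ext i j; simp
  map_add' x y := by ext i j; simp [mul_add]
  commutes' r := by
    ext i j
    simp only [Matrix.kroneckerMap_apply, Matrix.algebraMap_matrix_apply, Matrix.one_apply,
      Prod.ext_iff]
    by_cases h1 : i.1 = j.1 <;> by_cases h2 : i.2 = j.2 <;> simp [h1, h2]
  map_star' x := by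
    ext i j
    simp only [Matrix.kroneckerMap_apply, Matrix.star_apply, Matrix.one_apply]
    by_cases h1 : i.1 = j.1
    · simp [h1]
    · have h2 : ¬ j.1 = i.1 := fun h => h1 h.symm
      simp [h1, h2]

lemma inr_apply (x : Matrix κ κ ℂ) (p q : ι × κ) :
    inr ι x p q = (1 : Matrix ι ι ℂ) p.1 q.1 * x p.2 q.2 := rfl

lemma norm_inr_le (x : Matrix κ κ ℂ) : ‖inr ι x‖ ≤ ‖x‖ :=
  NonUnitalStarAlgHom.norm_apply_le (inr ι : Matrix κ κ ℂ →⋆ₐ[ℂ] Matrix (ι × κ) (ι × κ) ℂ) x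

lemma sum_one_sq (ι : Type) [Fintype ι] [DecidableEq ι] :
    ∑ i : ι, ∑ j : ι, ‖(1 : Matrix ι ι ℂ) i j‖ ^ 2 = Fintype.card ι := by
  have : ∀ i : ι, ∑ j : ι, ‖(1 : Matrix ι ι ℂ) i j‖ ^ 2 = 1 := by
    intro i
    rw [Finset.sum_eq_single i]
    · simp
    · intro j _ hj
      simp [Matrix.one_apply_ne hj.symm]
    · simp
  simp [this]

lemma hs_inr (x : Matrix κ κ ℂ) : hs (inr ι x) = Fintype.card ι * hs x := by
  unfold hs
  simp only [inr_apply, Fintype.sum_prod_type, norm_mul, mul_pow]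
  rw [← sum_one_sq ι, Finset.sum_mul]
  refine Finset.sum_congr rfl fun i _ => ?_
  rw [Finset.mul_sum]
  refine Finset.sum_congr rfl fun a _ => ?_
  rw [Finset.sum_mul]
  refine Finset.sum_congr rfl fun j _ => ?_
  rw [Finset.mul_sum]

lemma nn_inr_le (x : Matrix κ κ ℂ) : nn (inr ι x) ≤ nn x := by
  unfold nn
  rw [hs_inr, Fintype.card_prod, Nat.cast_mul]
  rcases Nat.eq_zero_or_pos (Fintype.card ι) with h | h
  · simp only [h, Nat.cast_zero, zero_mul, zero_div]
    exact div_nonneg (hs_nonneg x) (by positivity)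
  · have h' : (Fintype.card ι : ℝ) ≠ 0 := by exact_mod_cast h.ne'
    rw [mul_div_mul_left _ _ h']

lemma nn_inr [Nonempty ι] (x : Matrix κ κ ℂ) : nn (inr ι x) = nn x := by
  unfold nn
  rw [hs_inr, Fintype.card_prod, Nat.cast_mul]
  have h' : (Fintype.card ι : ℝ) ≠ 0 := by exact_mod_cast Fintype.card_ne_zero
  rw [mul_div_mul_left _ _ h']

/-- `u ↦ u ⊗ 1` on unitary matrices. -/
noncomputable def uinl (κ : Type) [Fintype κ] [DecidableEq κ] (u : Matrix.unitaryGroup ι ℂ) :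
    Matrix.unitaryGroup (ι × κ) ℂ :=
  ⟨Matrix.kroneckerMap (· * ·) (u : Matrix ι ι ℂ) (1 : Matrix κ κ ℂ),
    Matrix.kronecker_mem_unitary u.2 (Submonoid.one_mem _)⟩

lemma uinl_mul (u v : Matrix.unitaryGroup ι ℂ) : uinl κ (u * v) = uinl κ u * uinl κ v := by
  apply Subtype.ext
  have := Matrix.mul_kronecker_mul (u : Matrix ι ι ℂ) (v : Matrix ι ι ℂ) (1 : Matrix κ κ ℂ)
    (1 : Matrix κ κ ℂ)
  rw [one_mul] at this
  exact this

lemma uinl_commute (u : Matrix.unitaryGroup ι ℂ) (x : Matrix κ κ ℂ) :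
    (uinl κ u : Matrix (ι × κ) (ι × κ) ℂ) * inr ι x =
      inr ι x * (uinl κ u : Matrix (ι × κ) (ι × κ) ℂ) := by
  have h1 := Matrix.mul_kronecker_mul (u : Matrix ι ι ℂ) (1 : Matrix ι ι ℂ) (1 : Matrix κ κ ℂ) x
  have h2 := Matrix.mul_kronecker_mul (1 : Matrix ι ι ℂ) (u : Matrix ι ι ℂ) x (1 : Matrix κ κ ℂ)
  rw [mul_one, one_mul] at h1 h2
  exact h1.symm.trans h2

lemma ntr_uinl_mul (u : Matrix.unitaryGroup ι ℂ) (x : Matrix κ κ ℂ) :
    ntr ((uinl κ u : Matrix (ι × κ) (ι × κ) ℂ) * inr ι x) = ntr (u : Matrix ι ι ℂ) * ntr x := by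
  have h1 := Matrix.mul_kronecker_mul (u : Matrix ι ι ℂ) (1 : Matrix ι ι ℂ) (1 : Matrix κ κ ℂ) x
  rw [mul_one, one_mul] at h1
  have h2 : (uinl κ u : Matrix (ι × κ) (ι × κ) ℂ) * inr ι x =
      Matrix.kroneckerMap (· * ·) (u : Matrix ι ι ℂ) x := h1.symm
  rw [h2]
  unfold ntr
  rw [div_mul_div_comm, Finset.sum_mul_sum, Fintype.card_prod, Nat.cast_mul,
    Fintype.sum_prod_type]
  rfl

/-- blocks of a matrix in a tensor product -/
def blk (y : Matrix (ι × κ) (ι × κ) ℂ) (a b : κ) : Matrix ι ι ℂ := fun i j => y (i, a) (j, b)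

lemma hs_eq_blk (y : Matrix (ι × κ) (ι × κ) ℂ) : hs y = ∑ a, ∑ b, hs (blk y a b) := by
  unfold hs blk
  simp only [Fintype.sum_prod_type]
  rw [Finset.sum_comm]
  refine Finset.sum_congr rfl fun a _ => ?_
  have : ∀ i, ∑ j, ∑ b, ‖y (i, a) (j, b)‖ ^ 2 = ∑ b, ∑ j, ‖y (i, a) (j, b)‖ ^ 2 :=
    fun i => Finset.sum_comm
  simp only [this]
  exact Finset.sum_comm

/-- partial trace `τ ⊗ id` -/
noncomputable def ptr (y : Matrix (ι × κ) (ι × κ) ℂ) : Matrix κ κ ℂ := fun a b => ntr (blk y a b)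

lemma blk_sub_ptr (y : Matrix (ι × κ) (ι × κ) ℂ) (a b : κ) :
    blk (y - inr ι (ptr y)) a b = blk y a b - ntr (blk y a b) • (1 : Matrix ι ι ℂ) := by
  ext i j
  show y (i, a) (j, b) - inr ι (ptr y) (i, a) (j, b) = _
  rw [inr_apply]
  show _ = y (i, a) (j, b) - ntr (blk y a b) * (1 : Matrix ι ι ℂ) i j
  rw [mul_comm]
  rfl

lemma blk_comm (u : Matrix.unitaryGroup ι ℂ) (y : Matrix (ι × κ) (ι × κ) ℂ) (a b : κ) :
    blk ((uinl κ u : Matrix (ι × κ) (ι × κ) ℂ) * y - y * (uinl κ u : Matrix (ι × κ) (ι × κ) ℂ)) a b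
      = (u : Matrix ι ι ℂ) * blk y a b - blk y a b * (u : Matrix ι ι ℂ) := by
  ext i j
  show ((uinl κ u : Matrix (ι × κ) (ι × κ) ℂ) * y) (i, a) (j, b) -
    (y * (uinl κ u : Matrix (ι × κ) (ι × κ) ℂ)) (i, a) (j, b) =
    ((u : Matrix ι ι ℂ) * blk y a b) i j - (blk y a b * (u : Matrix ι ι ℂ)) i j
  rw [Matrix.mul_apply, Matrix.mul_apply, Matrix.mul_apply, Matrix.mul_apply,
    Fintype.sum_prod_type, Fintype.sum_prod_type]
  congr 1
  · refine Finset.sum_congr rfl fun k _ => ?_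
    rw [Finset.sum_eq_single a]
    · show (u : Matrix ι ι ℂ) i k * (1 : Matrix κ κ ℂ) a a * y (k, a) (j, b) = _
      rw [Matrix.one_apply_eq, mul_one]
      rfl
    · intro d _ hd
      show (u : Matrix ι ι ℂ) i k * (1 : Matrix κ κ ℂ) a d * y (k, d) (j, b) = _
      rw [Matrix.one_apply_ne hd.symm]
      simp
    · simp
  · refine Finset.sum_congr rfl fun k _ => ?_
    rw [Finset.sum_eq_single b]
    · show y (i, a) (k, b) * ((u : Matrix ι ι ℂ) k j * (1 : Matrix κ κ ℂ) b b) = _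
      rw [Matrix.one_apply_eq, mul_one]
      rfl
    · intro d _ hd
      show y (i, a) (k, d) * ((u : Matrix ι ι ℂ) k j * (1 : Matrix κ κ ℂ) d b) = _
      rw [Matrix.one_apply_ne hd]
      simp
    · simp

/-- isometries onto the blocks -/
def viso (κ : Type) [DecidableEq κ] (i : ι) : Matrix (ι × κ) κ ℂ :=
  fun p b => if p = (i, b) then 1 else 0

lemma viso_star_mul (i : ι) :
    (viso κ i).conjTranspose * viso κ i = (1 : Matrix κ κ ℂ) := by
  ext a b
  rw [Matrix.mul_apply]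
  simp only [Matrix.conjTranspose_apply, viso]
  rw [Finset.sum_eq_single (i, a)]
  · by_cases hab : a = b
    · subst hab; simp
    · rw [Matrix.one_apply_ne hab]
      simp [Prod.ext_iff, hab]
  · intro p _ hp
    simp [hp]
  · simp

lemma norm_viso_le (i : ι) : ‖viso κ i‖ ≤ 1 := by
  have h := Matrix.l2_opNorm_conjTranspose_mul_self (viso κ i)
  rw [viso_star_mul] at h
  have h1 : ‖(1 : Matrix κ κ ℂ)‖ ≤ 1 := norm_unitary_le 1 (Submonoid.one_mem _)
  nlinarith [norm_nonneg (viso κ i)]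

lemma viso_compress (i : ι) (y : Matrix (ι × κ) (ι × κ) ℂ) (a b : κ) :
    ((viso κ i).conjTranspose * y * viso κ i) a b = y (i, a) (i, b) := by
  rw [Matrix.mul_apply, Finset.sum_eq_single (i, b)]
  · rw [Matrix.mul_apply, Finset.sum_eq_single (i, a)]
    · simp [viso]
    · intro p _ hp
      simp [viso, hp]
    · simp
  · intro p _ hp
    simp [viso, hp]
  · simp

lemma norm_ptr_le (y : Matrix (ι × κ) (ι × κ) ℂ) : ‖ptr y‖ ≤ ‖y‖ := by
  have h1 : ptr y = (Fintype.card ι : ℂ)⁻¹ •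
      ∑ i : ι, ((viso κ i).conjTranspose * y * viso κ i) := by
    ext a b
    rw [Matrix.smul_apply, Matrix.sum_apply]
    simp only [viso_compress]
    show ntr (blk y a b) = _
    unfold ntr blk
    rw [smul_eq_mul, inv_mul_eq_div]
  have h2 : ∀ i : ι, ‖(viso κ i).conjTranspose * y * viso κ i‖ ≤ ‖y‖ := by
    intro i
    have e1 := norm_viso_le (κ := κ) i
    have e2 : ‖(viso κ i).conjTranspose‖ ≤ 1 := by
      rw [Matrix.l2_opNorm_conjTranspose]; exact e1
    calc ‖(viso κ i).conjTranspose * y * viso κ i‖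
        ≤ ‖(viso κ i).conjTranspose * y‖ * ‖viso κ i‖ := Matrix.l2_opNorm_mul _ _
      _ ≤ (‖(viso κ i).conjTranspose‖ * ‖y‖) * ‖viso κ i‖ := by
          gcongr
          exact Matrix.l2_opNorm_mul _ _
      _ ≤ (1 * ‖y‖) * 1 := by gcongr
      _ = ‖y‖ := by ring
  rw [h1, norm_smul, norm_inv, Complex.norm_natCast]
  have h3 : ‖∑ i : ι, ((viso κ i).conjTranspose * y * viso κ i)‖ ≤ Fintype.card ι * ‖y‖ := by
    refine (norm_sum_le _ _).trans ((Finset.sum_le_sum fun i _ => h2 i).trans ?_)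
    simp
  rcases Nat.eq_zero_or_pos (Fintype.card ι) with h | h
  · simp [h]
  · have h' : (0 : ℝ) < Fintype.card ι := by exact_mod_cast h
    rw [inv_mul_le_iff₀ h']
    exact h3

/-- spectral gap in a tensor product -/
lemma gap_tensor {G : Type} {S : Finset G} {c : ℝ} (w : G → Matrix.unitaryGroup ι ℂ)
    (hgap : ∀ y : Matrix ι ι ℂ, c * hs (y - ntr y • (1 : Matrix ι ι ℂ)) ≤
      ∑ s ∈ S, hs ((w s : Matrix ι ι ℂ) * y - y * (w s : Matrix ι ι ℂ)))
    (y : Matrix (ι × κ) (ι × κ) ℂ) :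
    c * hs (y - inr ι (ptr y)) ≤ ∑ s ∈ S, hs ((uinl κ (w s) : Matrix (ι × κ) (ι × κ) ℂ) * y -
      y * (uinl κ (w s) : Matrix (ι × κ) (ι × κ) ℂ)) := by
  simp only [hs_eq_blk, blk_sub_ptr, blk_comm]
  rw [Finset.mul_sum]
  have h1 : ∀ s ∈ S, ∑ a, ∑ b, hs ((w s : Matrix ι ι ℂ) * blk y a b -
      blk y a b * (w s : Matrix ι ι ℂ)) = ∑ a, ∑ b, hs ((w s : Matrix ι ι ℂ) * blk y a b -
      blk y a b * (w s : Matrix ι ι ℂ)) := fun _ _ => rfl
  rw [Finset.sum_comm]
  refine Finset.sum_le_sum fun a _ => ?_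
  rw [Finset.mul_sum, Finset.sum_comm]
  exact Finset.sum_le_sum fun b _ => hgap _

end single

section ultra

variable {ι κ : ℕ → Type} [∀ n, Fintype (ι n)] [∀ n, DecidableEq (ι n)]
  [∀ n, Fintype (κ n)] [∀ n, DecidableEq (κ n)] {U : Ultrafilter ℕ}

/-- `x ↦ 1 ⊗ x` on bounded sequences -/
noncomputable def jb (ι : ℕ → Type) {κ : ℕ → Type} [∀ n, Fintype (ι n)] [∀ n, DecidableEq (ι n)]
    [∀ n, Fintype (κ n)] [∀ n, DecidableEq (κ n)] : BSeq κ →+* BSeq (fun n => ι n × κ n) where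
  toFun x := ⟨fun n => inr (ι n) (x.1 n), by
    obtain ⟨C, hC⟩ := x.2
    exact ⟨C, fun n => (norm_inr_le _).trans (hC n)⟩⟩
  map_one' := Subtype.ext (funext fun n => map_one (inr (ι n)))
  map_mul' x y := Subtype.ext (funext fun n => map_mul (inr (ι n)) (x.1 n) (y.1 n))
  map_zero' := Subtype.ext (funext fun n => map_zero (inr (ι n)))
  map_add' x y := Subtype.ext (funext fun n => map_add (inr (ι n)) (x.1 n) (y.1 n))

lemma jb_val (x : BSeq κ) (n : ℕ) : (jb ι x).1 n = inr (ι n) (x.1 n) := rfl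

lemma jb_star (x : BSeq κ) : jb ι (star x) = star (jb ι x) :=
  Subtype.ext (funext fun n => map_star (inr (ι n)) (x.1 n))

/-- `x ↦ 1 ⊗ x` on ultraproducts -/
noncomputable def jm (ι : ℕ → Type) {κ : ℕ → Type} [∀ n, Fintype (ι n)] [∀ n, DecidableEq (ι n)]
    [∀ n, Fintype (κ n)] [∀ n, DecidableEq (κ n)] (U : Ultrafilter ℕ) :
    MUlt κ U →+* MUlt (fun n => ι n × κ n) U :=
  Ideal.Quotient.lift (Null κ U)
    ((mkM (ι := fun n => ι n × κ n) U).comp (jb ι)) (by
      intro a ha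
      rw [RingHom.comp_apply]
      refine Ideal.Quotient.eq_zero_iff_mem.2 (mem_null.2 ?_)
      exact squeeze_zero (fun n => nn_nonneg _) (fun n => nn_inr_le _) (mem_null.1 ha))

lemma jm_mk (x : BSeq κ) : jm ι U (mkM U x) =
    mkM (ι := fun n => ι n × κ n) U (jb ι x) := rfl

lemma jm_star (x : MUlt κ U) : jm ι U (star x) = star (jm ι U x) := by
  obtain ⟨x, rfl⟩ := mkM_surjective x
  rw [star_mk, jm_mk, jm_mk, star_mk, jb_star]

lemma jm_injective (hne : ∀ᶠ n in (U : Filter ℕ), Nonempty (ι n)) :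
    Function.Injective (jm (κ := κ) ι U) := by
  intro a b hab
  obtain ⟨x, rfl⟩ := mkM_surjective a
  obtain ⟨y, rfl⟩ := mkM_surjective b
  rw [jm_mk, jm_mk, mk_eq_mk] at hab
  rw [mk_eq_mk]
  refine hab.congr' ?_
  filter_upwards [hne] with n hn
  rw [jb_val, jb_val, ← map_sub, nn_inr]

/-- The homomorphism on the second factor. -/
noncomputable def jhom {H : Type} [Group H] (v : H →* MUlt κ U) :
    H →* MUlt (fun n => ι n × κ n) U := (jm ι U).toMonoidHom.comp v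

/-- Direct products. -/
lemma irredHom_prod {G H : Type} [Group G] [Group H]
    (w : ∀ n, G → Matrix.unitaryGroup (ι n) ℂ)
    (hne : ∀ᶠ n in (U : Filter ℕ), Nonempty (ι n))
    (hmul : ∀ g h, ∀ᶠ n in (U : Filter ℕ), w n (g * h) = w n g * w n h)
    {χ : G → ℂ} (htr : ∀ g, Tendsto (fun n => ntr (w n g : Matrix (ι n) (ι n) ℂ)) U (𝓝 (χ g)))
    {S : Finset G} {c : ℝ} (hc : 0 < c)
    (hgap : ∀ᶠ n in (U : Filter ℕ), ∀ y : Matrix (ι n) (ι n) ℂ,
      c * hs (y - ntr y • (1 : Matrix (ι n) (ι n) ℂ)) ≤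
      ∑ s ∈ S, hs ((w n s : Matrix (ι n) (ι n) ℂ) * y - y * (w n s : Matrix (ι n) (ι n) ℂ)))
    {ψ : H → ℂ} (hH : IrredHom κ ψ U) :
    IrredHom (fun n => ι n × κ n) (fun p : G × H => χ p.1 * ψ p.2) U := by
  obtain ⟨v, hvu, hvtr, hvc⟩ := hH
  have hmul' : ∀ g h, ∀ᶠ n in (U : Filter ℕ),
      uinl (κ n) (w n (g * h)) = uinl (κ n) (w n g) * uinl (κ n) (w n h) := by
    intro g h
    filter_upwards [hmul g h] with n hn
    rw [hn, uinl_mul]
  set A : G →* MUlt (fun n => ι n × κ n) U :=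
    uhom (fun n g => uinl (κ n) (w n g)) hmul' with hA
  set B : H →* MUlt (fun n => ι n × κ n) U := jhom v with hB
  have hAc : ∀ g, A g =
      mkM (ι := fun n => ι n × κ n) U (useq fun n => uinl (κ n) (w n g)) :=
    fun g => rfl
  have hBc : ∀ h, B h = jm ι U (v h : MUlt κ U) := fun h => rfl
  have hcomm : ∀ g h, Commute (A g) (B h) := by
    intro g h
    show A g * B h = B h * A g
    rw [hAc, hBc]
    obtain ⟨x, hx⟩ := mkM_surjective (v h : MUlt κ U)
    rw [← hx, jm_mk, ← map_mul, ← map_mul]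
    congr 1
    exact Subtype.ext (funext fun n => uinl_commute (w n g) (x.1 n))
  refine ⟨MonoidHom.noncommCoprod A B hcomm, ?_, ?_, ?_⟩
  · rintro ⟨g, h⟩
    have h1 : star (A g) * A g = 1 := uhom_unitary _ hmul' g
    have h2 : star (B h) * B h = 1 := by
      rw [hBc, ← jm_star, ← map_mul, hvu h, map_one]
    rw [MonoidHom.noncommCoprod_apply, star_mul]
    calc star (B h) * star (A g) * (A g * B h) = star (B h) * (star (A g) * A g) * B h := by
          simp only [mul_assoc]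
      _ = 1 := by rw [h1, mul_one, h2]
  · rintro ⟨g, h⟩
    show tr (A g * B h) = _
    rw [hAc, hBc]
    obtain ⟨x, hx⟩ := mkM_surjective (v h : MUlt κ U)
    rw [← hx, jm_mk, ← map_mul]
    refine tr_mk_eq ?_
    have e1 : ∀ n, ntr (((useq fun n => uinl (κ n) (w n g)) * jb ι x :
        BSeq (fun n => ι n × κ n)).1 n) = ntr (w n g : Matrix (ι n) (ι n) ℂ) * ntr (x.1 n) :=
      fun n => ntr_uinl_mul (w n g) (x.1 n)
    refine (tendsto_congr e1).2 ?_
    obtain ⟨b, hb⟩ := exists_lim (U := U) (bounded_ntr x)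
    have hb0 : b = ψ h := by
      rw [← hvtr h, ← hx]
      exact (tr_mk_eq hb).symm
    rw [hb0] at hb
    exact (htr g).mul hb
  · intro y hy
    obtain ⟨y, rfl⟩ := mkM_surjective y
    -- the partial trace
    let b : BSeq κ := ⟨fun n => ptr (y.1 n), by
      obtain ⟨C, hC⟩ := y.2
      exact ⟨C, fun n => (norm_ptr_le _).trans (hC n)⟩⟩
    have hyb : mkM (ι := fun n => ι n × κ n) U y =
        jm ι U (mkM U b) := by
      rw [jm_mk, mk_eq_mk]
      have h1 : ∀ s, Tendsto (fun n => nn ((uinl (κ n) (w n s) : Matrix (ι n × κ n) (ι n × κ n) ℂ) *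
          y.1 n - y.1 n * (uinl (κ n) (w n s) : Matrix (ι n × κ n) (ι n × κ n) ℂ))) U (𝓝 0) := by
        intro s
        have h0 := hy (s, 1)
        have h00 : MonoidHom.noncommCoprod A B hcomm (s, 1) = A s := by
          rw [MonoidHom.noncommCoprod_apply, map_one, mul_one]
        rw [h00, hAc] at h0
        have h5 := commute_tendsto (x := useq fun n => uinl (κ n) (w n s)) (y := y) (U := U) h0
        simp only [useq_val] at h5
        exact h5
      have h2 : Tendsto (fun n => c⁻¹ * ∑ s ∈ S, nn ((uinl (κ n) (w n s) :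
          Matrix (ι n × κ n) (ι n × κ n) ℂ) * y.1 n -
          y.1 n * (uinl (κ n) (w n s) : Matrix (ι n × κ n) (ι n × κ n) ℂ))) U (𝓝 0) := by
        have := (tendsto_finsetSum S fun s _ => h1 s).const_mul c⁻¹
        simpa using this
      refine squeeze_zero' (Filter.Eventually.of_forall fun n => nn_nonneg _) ?_ h2
      filter_upwards [hgap] with n hn
      have h3 := gap_tensor (κ := κ n) (w n) hn (y.1 n)
      have h4 : c * nn (y.1 n - inr (ι n) (ptr (y.1 n))) ≤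
          ∑ s ∈ S, nn ((uinl (κ n) (w n s) : Matrix (ι n × κ n) (ι n × κ n) ℂ) * y.1 n -
            y.1 n * (uinl (κ n) (w n s) : Matrix (ι n × κ n) (ι n × κ n) ℂ)) := by
        unfold nn
        rw [← Finset.sum_div, ← mul_div_assoc]
        exact div_le_div_of_nonneg_right h3 (by positivity)
      rw [inv_mul_eq_div, le_div_iff₀ hc]
      have e2 : (jb ι b).1 n = inr (ι n) (ptr (y.1 n)) := rfl
      rw [e2]
      linarith
    obtain ⟨a, ha⟩ := hvc (mkM U b) (by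
      intro h
      apply jm_injective (ι := ι) hne
      rw [map_mul, map_mul, ← hyb]
      have h0 := hy (1, h)
      have h00 : MonoidHom.noncommCoprod A B hcomm (1, h) = jm ι U (v h : MUlt κ U) := by
        rw [MonoidHom.noncommCoprod_apply, map_one, one_mul]
        rfl
      rwa [h00] at h0)
    refine ⟨a, ?_⟩
    rw [hyb, ha]
    have e3 : algebraMap ℂ (MUlt κ U) a = mkM U (algebraMap ℂ (BSeq κ) a) :=
      rfl
    rw [e3, jm_mk]
    have e4 : algebraMap ℂ (MUlt (fun n => ι n × κ n) U) a =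
        mkM (ι := fun n => ι n × κ n) U
          (algebraMap ℂ (BSeq (fun n => ι n × κ n)) a) := rfl
    rw [e4]
    congr 1
    exact Subtype.ext (funext fun n => (AlgHomClass.commutes (inr (ι n) : Matrix (κ n) (κ n) ℂ →⋆ₐ[ℂ]
      Matrix (ι n × κ n) (ι n × κ n) ℂ) a))

end ultra

end Helper51.MU
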