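import Pool.Agent.Helper51.MU.Stmt

/-!
# Finite-dimensional unitary representations and their normalized characters
-/

set_option linter.unusedSectionVars false

namespace Helper51.MU

open Filter Topology

/-- A continuous finite-dimensional unitary representation of a group with a topology. -/
structure FRep (Q : Type) [Group Q] [TopologicalSpace Q] where
  ι : Type
  [ft : Fintype ι]
  [de : DecidableEq ι]
  [ne : Nonempty ι]
  ρ : Q →* Matrix.unitaryGroup ι ℂ
  cont : Continuous ρ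

attribute [instance] FRep.ft FRep.de FRep.ne

/-- The normalized character of a finite-dimensional representation. -/
noncomputable def FRep.χ {Q : Type} [Group Q] [TopologicalSpace Q] (π : FRep Q) (q : Q) : ℂ :=
  ntr (π.ρ q : Matrix π.ι π.ι ℂ)

variable {Q : Type} [Group Q] [TopologicalSpace Q]

namespace FRep

lemma card_pos (π : FRep Q) : (0 : ℝ) < Fintype.card π.ι := by
  exact_mod_cast Fintype.card_pos

lemma norm_trace_le {ι : Type} [Fintype ι] [DecidableEq ι] (u : Matrix ι ι ℂ)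
    (hu : u ∈ Matrix.unitaryGroup ι ℂ) : ‖∑ i, u i i‖ ≤ Fintype.card ι := by
  calc ‖∑ i, u i i‖ ≤ ∑ i, ‖u i i‖ := norm_sum_le _ _
    _ ≤ ∑ _i : ι, (1 : ℝ) := Finset.sum_le_sum fun i _ => entry_norm_bound_of_unitary hu i i
    _ = Fintype.card ι := by simp

lemma norm_χ_le_one (π : FRep Q) (q : Q) : ‖π.χ q‖ ≤ 1 := by
  unfold χ ntr
  rw [norm_div, Complex.norm_natCast, div_le_one π.card_pos]
  exact norm_trace_le _ (π.ρ q).2

/-- Hilbert-Schmidt distance of a unitary matrix to the identity. -/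
lemma hs_sub_one {ι : Type} [Fintype ι] [DecidableEq ι] (u : Matrix ι ι ℂ)
    (hu : u ∈ Matrix.unitaryGroup ι ℂ) :
    hs (u - 1) = 2 * Fintype.card ι - 2 * (∑ i, u i i).re := by
  have h1 : ∀ i, ∑ j, ‖u i j‖ ^ 2 = 1 := by
    intro i
    have := congrFun (congrFun (Matrix.mem_unitaryGroup_iff.1 hu) i) i
    rw [Matrix.mul_apply, Matrix.one_apply_eq] at this
    have h2 : (∑ j, (‖u i j‖ ^ 2 : ℝ) : ℂ) = 1 := by
      rw [← this]
      push_cast
      refine Finset.sum_congr rfl fun j _ => ?_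
      rw [Matrix.star_apply, ← Complex.mul_conj']
      rfl
    exact_mod_cast h2
  have h2 : ∀ i j, ‖(u - 1) i j‖ ^ 2 = ‖u i j‖ ^ 2 + (if i = j then 1 - 2 * (u i i).re else 0) := by
    intro i j
    by_cases hij : i = j
    · subst hij
      simp only [Matrix.sub_apply, Matrix.one_apply_eq, if_true]
      rw [← Complex.normSq_eq_norm_sq, ← Complex.normSq_eq_norm_sq, Complex.normSq_apply,
        Complex.normSq_apply]
      simp
      ring
    · simp [Matrix.sub_apply, Matrix.one_apply_ne hij, hij]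
  unfold hs
  simp only [h2, Finset.sum_add_distrib, h1]
  simp [Finset.sum_add_distrib, Finset.sum_sub_distrib, ← Finset.mul_sum]
  ring

lemma eq_zero_of_hs {ι : Type} [Fintype ι] {x : Matrix ι ι ℂ} (h : hs x ≤ 0) : x = 0 := by
  have h0 : hs x = 0 := le_antisymm h (hs_nonneg x)
  unfold hs at h0
  ext i j
  have h1 := (Finset.sum_eq_zero_iff_of_nonneg
    (fun i _ => Finset.sum_nonneg fun j _ => by positivity)).1 h0 i (Finset.mem_univ i)
  have h2 := (Finset.sum_eq_zero_iff_of_nonneg (fun j _ => by positivity)).1 h1 j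
    (Finset.mem_univ j)
  simpa using h2

/-- Direct sum with the trivial one-dimensional representation. -/
noncomputable def addOne {ι : Type} [Fintype ι] [DecidableEq ι]
    (ρ : Q →* Matrix.unitaryGroup ι ℂ) : Q →* Matrix.unitaryGroup (ι ⊕ Unit) ℂ where
  toFun q := ⟨Matrix.fromBlocks (ρ q : Matrix ι ι ℂ) 0 0 1, by
    rw [Matrix.mem_unitaryGroup_iff, Matrix.star_eq_conjTranspose, Matrix.fromBlocks_conjTranspose,
      Matrix.fromBlocks_multiply]
    have := Matrix.mem_unitaryGroup_iff.1 (ρ q).2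
    rw [Matrix.star_eq_conjTranspose] at this
    simp [this]⟩
  map_one' := by
    apply Subtype.ext
    simp
  map_mul' a b := by
    apply Subtype.ext
    simp [Matrix.fromBlocks_multiply]

lemma exists_small (ι : Type) [Fintype ι] [DecidableEq ι] (ρ : Q →* Matrix.unitaryGroup ι ℂ)
    (hc : Continuous ρ) (q : Q) (hq : ρ q ≠ 1) : ∃ σ : FRep Q, ‖σ.χ q‖ < 1 := by
  refine ⟨{ ι := ι ⊕ Unit, ρ := addOne ρ, cont := ?_ }, ?_⟩
  · refine Continuous.subtype_mk ?_ _
    refine Continuous.matrix_fromBlocks (continuous_subtype_val.comp hc) continuous_const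
      continuous_const continuous_const
  · unfold χ ntr
    have hpos : (0 : ℝ) < (Fintype.card (ι ⊕ Unit) : ℝ) := by
      exact_mod_cast Fintype.card_pos
    rw [norm_div, Complex.norm_natCast]
    refine (div_lt_one (by exact_mod_cast hpos)).2 ?_
    have hsum : (∑ i, ((addOne ρ q : Matrix.unitaryGroup (ι ⊕ Unit) ℂ) :
        Matrix (ι ⊕ Unit) (ι ⊕ Unit) ℂ) i i) = (∑ i, (ρ q : Matrix ι ι ℂ) i i) + 1 := by
      rw [Fintype.sum_sum_type]
      simp [addOne]
    rw [hsum]
    have hcard : (Fintype.card (ι ⊕ Unit) : ℝ) = Fintype.card ι + 1 := by simp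
    rw [hcard]
    by_contra hcon
    push Not at hcon
    set a : ℂ := ∑ i, (ρ q : Matrix ι ι ℂ) i i with ha
    have h1 : ‖a‖ ≤ Fintype.card ι := norm_trace_le _ (ρ q).2
    have h2 : ‖a + 1‖ ^ 2 = ‖a‖ ^ 2 + 2 * a.re + 1 := by
      rw [← Complex.normSq_eq_norm_sq, ← Complex.normSq_eq_norm_sq, Complex.normSq_apply,
        Complex.normSq_apply]
      simp
      ring
    have h3 : (Fintype.card ι : ℝ) ≤ a.re := by
      have : ((Fintype.card ι : ℝ) + 1) ^ 2 ≤ ‖a + 1‖ ^ 2 := by gcongr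
      have h4 : ‖a‖ ^ 2 ≤ (Fintype.card ι : ℝ) ^ 2 := by gcongr
      nlinarith
    have h5 := hs_sub_one _ (ρ q).2
    rw [← ha] at h5
    have h6 : (ρ q : Matrix ι ι ℂ) - 1 = 0 := eq_zero_of_hs (by rw [h5]; linarith)
    exact hq (Subtype.ext (by simpa using sub_eq_zero.1 h6))

/-- Tensor product of unitary representations. -/
noncomputable def tens {ι κ : Type} [Fintype ι] [DecidableEq ι] [Fintype κ] [DecidableEq κ]
    (ρ : Q →* Matrix.unitaryGroup ι ℂ) (σ : Q →* Matrix.unitaryGroup κ ℂ) :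
    Q →* Matrix.unitaryGroup (ι × κ) ℂ where
  toFun q := ⟨Matrix.kroneckerMap (· * ·) (ρ q : Matrix ι ι ℂ) (σ q : Matrix κ κ ℂ),
    Matrix.kronecker_mem_unitary (ρ q).2 (σ q).2⟩
  map_one' := by
    apply Subtype.ext
    simp
  map_mul' a b := by
    apply Subtype.ext
    simp [Matrix.mul_kronecker_mul]

lemma exists_mul (π σ : FRep Q) : ∃ τ : FRep Q, ∀ q, τ.χ q = π.χ q * σ.χ q := by
  refine ⟨{ ι := π.ι × σ.ι, ρ := tens π.ρ σ.ρ, cont := ?_ }, ?_⟩
  · refine Continuous.subtype_mk ?_ _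
    refine continuous_matrix fun i j => ?_
    have h1 : Continuous fun q => (π.ρ q : Matrix π.ι π.ι ℂ) i.1 j.1 :=
      (continuous_subtype_val.comp π.cont).matrix_elem _ _
    have h2 : Continuous fun q => (σ.ρ q : Matrix σ.ι σ.ι ℂ) i.2 j.2 :=
      (continuous_subtype_val.comp σ.cont).matrix_elem _ _
    exact h1.mul h2
  · intro q
    unfold χ ntr
    rw [div_mul_div_comm, Finset.sum_mul_sum, Fintype.card_prod, Nat.cast_mul]
    congr 1
    rw [Fintype.sum_prod_type]
    rfl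

lemma exists_pow (π : FRep Q) (N : ℕ) : ∃ τ : FRep Q, ∀ q, τ.χ q = π.χ q ^ N := by
  induction N with
  | zero =>
    refine ⟨{ ι := Unit, ρ := 1, cont := continuous_const }, fun q => ?_⟩
    simp [χ, ntr]
  | succ N ih =>
    obtain ⟨τ, hτ⟩ := ih
    obtain ⟨τ', hτ'⟩ := exists_mul τ π
    exact ⟨τ', fun q => by rw [hτ', hτ, pow_succ]⟩

lemma exists_small_finset (T : Finset Q)
    (h : ∀ q ∈ T, ∃ σ : FRep Q, ‖σ.χ q‖ < 1) : ∃ σ : FRep Q, ∀ q ∈ T, ‖σ.χ q‖ < 1 := by
  classical
  induction T using Finset.induction_on with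
  | empty => exact ⟨{ ι := Unit, ρ := 1, cont := continuous_const }, by simp⟩
  | insert a T ha ih =>
    obtain ⟨σ, hσ⟩ := ih fun q hq => h q (Finset.mem_insert_of_mem hq)
    obtain ⟨τ, hτ⟩ := h a (Finset.mem_insert_self a T)
    obtain ⟨π, hπ⟩ := exists_mul σ τ
    refine ⟨π, fun q hq => ?_⟩
    rw [hπ, norm_mul]
    rcases Finset.mem_insert.1 hq with rfl | hq
    · have h1 := σ.norm_χ_le_one q
      have h2 := norm_nonneg (τ.χ q)
      nlinarith
    · have h1 := τ.norm_χ_le_one q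
      have h2 := norm_nonneg (σ.χ q)
      have h3 := hσ q hq
      nlinarith

/-- If finitely many elements are separated from `1` by finite-dimensional representations, then
there is one representation whose normalized character is small on all of them. -/
lemma exists_tiny (T : Finset Q)
    (h : ∀ q ∈ T, ∃ σ : FRep Q, ‖σ.χ q‖ < 1) {ε : ℝ} (hε : 0 < ε) :
    ∃ σ : FRep Q, ∀ q ∈ T, ‖σ.χ q‖ ≤ ε := by
  obtain ⟨σ, hσ⟩ := exists_small_finset T h
  have h1 : ∀ q ∈ T, ∀ᶠ N : ℕ in atTop, ‖σ.χ q‖ ^ N ≤ ε := by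
    intro q hq
    have := tendsto_pow_atTop_nhds_zero_of_lt_one (norm_nonneg _) (hσ q hq)
    exact (this.eventually_lt_const hε).mono fun N hN => hN.le
  have h2 : ∀ᶠ N : ℕ in atTop, ∀ q ∈ T, ‖σ.χ q‖ ^ N ≤ ε :=
    (Filter.eventually_all_finset T).2 h1
  obtain ⟨N, hN⟩ := h2.exists
  obtain ⟨τ, hτ⟩ := exists_pow σ N
  exact ⟨τ, fun q hq => by rw [hτ, norm_pow]; exact hN q hq⟩

end FRep

end Helper51.MU
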