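import Pool.Agent.Helper51.MU.Defs

/-!
# Definitions used in the statement
-/

namespace Helper51.MU

open Filter Topology

/-- Asymptotic multiplicativity of a sequence of maps from a group `G` to groups `Q j`. -/
def AMul {G : Type} [Group G] {Q : ℕ → Type} [∀ j, Group (Q j)] (φ : ∀ j, G → Q j) : Prop :=
  ∀ g h : G, ∀ᶠ j in atTop, φ j (g * h) = φ j g * φ j h

/-- Every nontrivial element of `G` is eventually mapped to an element that is not in the kernel
of all finite-dimensional continuous unitary representations. -/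
def Separating {G : Type} [Group G] {Q : ℕ → Type} [∀ j, Group (Q j)]
    [∀ j, TopologicalSpace (Q j)] (φ : ∀ j, G → Q j) : Prop :=
  ∀ g : G, g ≠ 1 → ∀ᶠ j in atTop, ∃ (ι : Type) (_ : Fintype ι) (_ : DecidableEq ι)
    (ρ : Q j →* Matrix.unitaryGroup ι ℂ), Continuous ρ ∧ ρ (φ j g) ≠ 1

/-- Uniform spectral gap with constant `c` for the elements `f s`, `s ∈ S`, of the topological
group `Q`: in every finite-dimensional continuous unitary representation `ρ` of `Q` and every
vector `v` orthogonal to the `Q`-invariant vectors, `c ‖v‖² ≤ ∑_{s ∈ S} ‖ρ(f s) v - v‖²`. -/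
def Gap {G : Type} (S : Finset G) (c : ℝ) (Q : Type) [Group Q] [TopologicalSpace Q]
    (f : G → Q) : Prop :=
  ∀ (ι : Type) [Fintype ι] [DecidableEq ι] (ρ : Q →* Matrix.unitaryGroup ι ℂ), Continuous ρ →
    ∀ v : ι → ℂ,
      (∀ w : ι → ℂ, (∀ q, (ρ q : Matrix ι ι ℂ).mulVec w = w) → ∑ i, star (w i) * v i = 0) →
      c * ∑ i, ‖v i‖ ^ 2 ≤ ∑ s ∈ S, ∑ i, ‖((ρ (f s) : Matrix ι ι ℂ).mulVec v - v) i‖ ^ 2

/-- A character of a group: a normalized positive definite class function. -/
structure IsChar {G : Type} [Group G] (φ : G → ℂ) : Prop where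
  one : φ 1 = 1
  conj : ∀ g h : G, φ (h * g * h⁻¹) = φ g
  pos : ∀ (m : ℕ) (a : Fin m → ℂ) (x : Fin m → G),
    (∑ i, ∑ k, star (a i) * a k * φ ((x i)⁻¹ * x k)).im = 0 ∧
      0 ≤ (∑ i, ∑ k, star (a i) * a k * φ ((x i)⁻¹ * x k)).re

/-- An extremal character (equivalently: the von Neumann algebra generated by the GNS
representation of `φ` is a factor). -/
def IsExtremalChar {G : Type} [Group G] (φ : G → ℂ) : Prop :=
  IsChar φ ∧ ∀ (α β : G → ℂ) (t : ℝ), IsChar α → IsChar β → 0 < t → t < 1 →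
    (∀ g, φ g = t * α g + (1 - t) * β g) → α = φ

/-- The GNS space of `χ` is infinite-dimensional: there are arbitrarily large nonsingular Gram
matrices `(χ (q a)⁻¹ (q b))`. -/
def InfiniteDim {G : Type} [Group G] (χ : G → ℂ) : Prop :=
  ∀ M : ℕ, ∃ q : Fin M → G, (Matrix.of fun a b => χ ((q a)⁻¹ * q b)).det ≠ 0

open Classical in
/-- The regular character `δ_1`. -/
noncomputable def delta {G : Type} [Group G] (g : G) : ℂ := if g = 1 then 1 else 0

/-- Nonprincipal ultrafilters contain all cofinite sets. -/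
def Nonprincipal (U : Ultrafilter ℕ) : Prop := ∀ s : Set ℕ, s.Finite → sᶜ ∈ U

/-- There is a homomorphism `u` from the group `G` to the group of unitary elements of the
tracial matrix ultraproduct with `τ(u g) = χ g` for all `g` and such that only the scalars commute
with all `u g`. -/
def IrredHom (ι : ℕ → Type) [∀ n, Fintype (ι n)] [∀ n, DecidableEq (ι n)] {G : Type} [Group G]
    (χ : G → ℂ) (U : Ultrafilter ℕ) : Prop :=
  ∃ u : G →* MUlt ι U, (∀ g, star (u g) * u g = 1) ∧ (∀ g, tr (u g) = χ g) ∧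
    ∀ y : MUlt ι U, (∀ g, y * u g = u g * y) → ∃ c : ℂ, y = algebraMap ℂ (MUlt ι U) c

/-- The conclusion of the main theorems for a character `χ` of the group `G`. -/
def HasIrreducibleEmbeddings {G : Type} [Group G] (χ : G → ℂ) : Prop :=
  (∃ k : ℕ → ℕ, (∀ n, n ≤ k n) ∧ ∀ U : Ultrafilter ℕ, Nonprincipal U →
    IrredHom (fun n => Fin (k n)) χ U ∧
    ∀ (H : Type) [Group H] (ψ : H → ℂ) (l : ℕ → ℕ), IrredHom (fun n => Fin (l n)) ψ U →
      IrredHom (fun n => Fin (k n) × Fin (l n)) (fun p : G × H => χ p.1 * ψ p.2) U) ∧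
  ∃ D : Set ℕ, D.Infinite ∧ ∀ U : Ultrafilter ℕ, Nonprincipal U → D ∈ U →
    IrredHom (fun n => Fin n) χ U

end Helper51.MU
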